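import Pool.Agent.Q120.KAPDefs

/-!
# Basic facts on counting monochromatic progressions
-/

namespace Q120.KAP

open Finset

/-- Pairs (first term, difference) of the `k`-APs in `{1, …, n}`. -/
def pairs (k n : ℕ) : Finset (ℕ × ℕ) :=
  (Finset.Icc 1 n ×ˢ Finset.Icc 1 n).filter fun p => p.1 + (k - 1) * p.2 ≤ n

lemma mem_pairs {k n : ℕ} (hk : 2 ≤ k) {p : ℕ × ℕ} :
    p ∈ pairs k n ↔ 1 ≤ p.1 ∧ 1 ≤ p.2 ∧ p.1 + (k - 1) * p.2 ≤ n := by
  unfold pairs
  rw [mem_filter, mem_product, mem_Icc, mem_Icc]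
  constructor
  · rintro ⟨⟨h1, h2⟩, h3⟩
    exact ⟨h1.1, h2.1, h3⟩
  · rintro ⟨h1, h2, h3⟩
    have : p.2 ≤ (k - 1) * p.2 := Nat.le_mul_of_pos_left _ (by omega)
    exact ⟨⟨⟨h1, by omega⟩, ⟨h2, by omega⟩⟩, h3⟩

/-- Pair version of `monoCount`. -/
def cnt (k n : ℕ) {r : ℕ} (χ : ℕ → Fin r) : ℕ :=
  ((pairs k n).filter fun p => ∀ j < k, χ (p.1 + j * p.2) = χ p.1).card

/-- The set attached to a pair. -/
def apSet (k : ℕ) (p : ℕ × ℕ) : Finset ℕ := (Finset.range k).image fun j => p.1 + j * p.2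

lemma apSet_inj {k : ℕ} (hk : 2 ≤ k) {p q : ℕ × ℕ} (hp : 1 ≤ p.2) (hq : 1 ≤ q.2)
    (h : apSet k p = apSet k q) : p = q := by
  have key : ∀ p q : ℕ × ℕ, 1 ≤ p.2 → 1 ≤ q.2 → apSet k p = apSet k q →
      q.1 ≤ p.1 ∧ (p.1 = q.1 → q.2 ≤ p.2) := by
    intro p q hp hq h
    constructor
    · have h1 : p.1 ∈ apSet k q := by
        rw [← h]
        exact mem_image.2 ⟨0, mem_range.2 (by omega), by simp⟩
      obtain ⟨j, _, hj⟩ := mem_image.1 h1
      omega
    · intro he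
      have h1 : p.1 + p.2 ∈ apSet k q := by
        rw [← h]
        exact mem_image.2 ⟨1, mem_range.2 (by omega), by simp⟩
      obtain ⟨j, _, hj⟩ := mem_image.1 h1
      have hj0 : j ≠ 0 := by
        rintro rfl
        simp at hj
        omega
      have : q.2 ≤ j * q.2 := Nat.le_mul_of_pos_left _ (by omega)
      omega
  have h1 := key p q hp hq h
  have h2 := key q p hq hp h.symm
  ext
  · omega
  · have := h1.2 (by omega)
    have := h2.2 (by omega)
    omega

lemma monoCount_eq {k n r : ℕ} (hk : 2 ≤ k) (χ : ℕ → Fin r) : monoCount k n χ = cnt k n χ := by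
  classical
  have hset : {S : Finset ℕ | IsKAP k n S ∧ ∀ x ∈ S, ∀ y ∈ S, χ x = χ y} =
      (((pairs k n).filter fun p => ∀ j < k, χ (p.1 + j * p.2) = χ p.1).image (apSet k) :
        Set (Finset ℕ)) := by
    ext S
    rw [coe_image, Set.mem_image]
    constructor
    · rintro ⟨⟨a, d, ha, hd, hn, rfl⟩, hmono⟩
      refine ⟨(a, d), ?_, rfl⟩
      rw [mem_coe, mem_filter]
      refine ⟨(mem_pairs hk).2 ⟨ha, hd, hn⟩, fun j hj => ?_⟩
      apply hmono
      · exact mem_image.2 ⟨j, mem_range.2 hj, rfl⟩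
      · exact mem_image.2 ⟨0, mem_range.2 (by omega), by simp⟩
    · rintro ⟨⟨a, d⟩, hp, rfl⟩
      rw [mem_coe, mem_filter, mem_pairs hk] at hp
      obtain ⟨⟨h1, h2, h3⟩, h4⟩ := hp
      refine ⟨⟨a, d, h1, h2, h3, rfl⟩, ?_⟩
      intro x hx y hy
      obtain ⟨i, hi, rfl⟩ := mem_image.1 hx
      obtain ⟨j, hj, rfl⟩ := mem_image.1 hy
      have e1 := h4 i (mem_range.1 hi)
      have e2 := h4 j (mem_range.1 hj)
      exact e1.trans e2.symm
  unfold monoCount cnt
  rw [hset, Set.ncard_coe_finset, card_image_of_injOn]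
  intro p hp q hq h
  rw [mem_coe, mem_filter, mem_pairs hk] at hp hq
  exact apSet_inj hk hp.1.2.1 hq.1.2.1 h

lemma lt_of_mem_pairs {k n : ℕ} (hk : 2 ≤ k) {p : ℕ × ℕ} (hp : p ∈ pairs k n) {j : ℕ}
    (hj : j < k) : p.1 + j * p.2 < n + 1 := by
  rw [mem_pairs hk] at hp
  have : j * p.2 ≤ (k - 1) * p.2 := Nat.mul_le_mul_right _ (by omega)
  omega

/-! ### Derandomisation -/

section Derandom

variable {k n r : ℕ}

/-- Extend a colouring of `Fin (n + 1)` to `ℕ`. -/
def ext [NeZero r] (ψ : Fin (n + 1) → Fin r) (x : ℕ) : Fin r :=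
  if h : x < n + 1 then ψ ⟨x, h⟩ else 0

lemma sum_weight_ap [NeZero r] (hk : 2 ≤ k) (p : ℕ → Fin r → ℝ) (hp1 : ∀ x, ∑ c, p x c = 1)
    {q : ℕ × ℕ} (hq : q ∈ pairs k n) (c : Fin r) :
    ∑ ψ : Fin (n + 1) → Fin r, (∏ x : Fin (n + 1), p x (ψ x)) *
      (if ∀ j < k, ext ψ (q.1 + j * q.2) = c then (1 : ℝ) else 0) =
    ∏ j ∈ range k, p (q.1 + j * q.2) c := by
  classical
  set S : Finset (Fin (n + 1)) := univ.filter fun x => (x : ℕ) ∈ apSet k q with hS
  have h1 : ∀ ψ : Fin (n + 1) → Fin r, (∏ x : Fin (n + 1), p x (ψ x)) *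
      (if ∀ j < k, ext ψ (q.1 + j * q.2) = c then (1 : ℝ) else 0) =
      ∏ x : Fin (n + 1), (p x (ψ x) * (if x ∈ S then (if ψ x = c then 1 else 0) else 1)) := by
    intro ψ
    rw [prod_mul_distrib]
    congr 1
    by_cases hall : ∀ j < k, ext ψ (q.1 + j * q.2) = c
    · rw [if_pos hall, prod_eq_one]
      intro x _
      by_cases hx : x ∈ S
      · rw [if_pos hx]
        rw [hS, mem_filter] at hx
        obtain ⟨j, hj, hjx⟩ := mem_image.1 hx.2
        have := hall j (mem_range.1 hj)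
        rw [hjx] at this
        unfold ext at this
        rw [dif_pos x.2] at this
        rw [if_pos this]
      · rw [if_neg hx]
    · rw [if_neg hall]
      push Not at hall
      obtain ⟨j, hj, hjc⟩ := hall
      have hlt := lt_of_mem_pairs hk hq hj
      symm
      apply prod_eq_zero (mem_univ (⟨q.1 + j * q.2, hlt⟩ : Fin (n + 1)))
      have hx : (⟨q.1 + j * q.2, hlt⟩ : Fin (n + 1)) ∈ S := by
        rw [hS, mem_filter]
        exact ⟨mem_univ _, mem_image.2 ⟨j, mem_range.2 hj, rfl⟩⟩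
      rw [if_pos hx, if_neg]
      unfold ext at hjc
      rwa [dif_pos hlt] at hjc
  rw [sum_congr rfl fun ψ _ => h1 ψ]
  rw [← Fintype.prod_sum (fun (x : Fin (n + 1)) (c' : Fin r) =>
    p x c' * (if x ∈ S then (if c' = c then (1 : ℝ) else 0) else 1))]
  have h2 : ∀ x : Fin (n + 1), ∑ c' : Fin r,
      p x c' * (if x ∈ S then (if c' = c then (1 : ℝ) else 0) else 1) =
      if x ∈ S then p x c else 1 := by
    intro x
    by_cases hx : x ∈ S
    · simp only [if_pos hx]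
      simp
    · simp only [if_neg hx, mul_one]
      exact hp1 x
  rw [prod_congr rfl fun x _ => h2 x, prod_ite_mem, univ_inter]
  -- now a product over `S`
  symm
  apply prod_bij (fun j (hj : j ∈ range k) =>
    (⟨q.1 + j * q.2, lt_of_mem_pairs hk hq (mem_range.1 hj)⟩ : Fin (n + 1)))
  · intro j hj
    rw [hS, mem_filter]
    exact ⟨mem_univ _, mem_image.2 ⟨j, hj, rfl⟩⟩
  · intro i hi j hj h
    simp only [Fin.mk.injEq] at h
    have hq2 : 0 < q.2 := ((mem_pairs hk).1 hq).2.1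
    have : i * q.2 = j * q.2 := by omega
    exact Nat.eq_of_mul_eq_mul_right hq2 this
  · intro x hx
    rw [hS, mem_filter] at hx
    obtain ⟨j, hj, hjx⟩ := mem_image.1 hx.2
    exact ⟨j, hj, Fin.ext hjx⟩
  · intro j hj
    rfl

lemma exists_colouring [NeZero r] (hk : 2 ≤ k) (p : ℕ → Fin r → ℝ) (hp0 : ∀ x c, 0 ≤ p x c)
    (hp1 : ∀ x, ∑ c, p x c = 1) :
    ∃ χ : ℕ → Fin r, (cnt k n χ : ℝ) ≤
      ∑ q ∈ pairs k n, ∑ c, ∏ j ∈ range k, p (q.1 + j * q.2) c := by
  classical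
  by_contra hcon
  push Not at hcon
  set F := ∑ q ∈ pairs k n, ∑ c, ∏ j ∈ range k, p (q.1 + j * q.2) c with hF
  have hw : ∑ ψ : Fin (n + 1) → Fin r, (∏ x : Fin (n + 1), p x (ψ x)) = 1 := by
    rw [← Fintype.prod_sum (fun (x : Fin (n + 1)) (c' : Fin r) => p x c')]
    exact prod_eq_one fun x _ => hp1 x
  have hw0 : ∀ ψ : Fin (n + 1) → Fin r, 0 ≤ ∏ x : Fin (n + 1), p x (ψ x) := fun ψ =>
    prod_nonneg fun x _ => hp0 _ _
  have hcnt : ∀ ψ : Fin (n + 1) → Fin r, (cnt k n (ext ψ) : ℝ) =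
      ∑ q ∈ pairs k n, ∑ c, (if ∀ j < k, ext ψ (q.1 + j * q.2) = c then (1 : ℝ) else 0) := by
    intro ψ
    unfold cnt
    rw [card_filter]
    push_cast
    apply sum_congr rfl
    intro q _
    by_cases h : ∀ j < k, ext ψ (q.1 + j * q.2) = ext ψ q.1
    · rw [if_pos h, sum_eq_single (ext ψ q.1), if_pos h]
      · intro c _ hc
        rw [if_neg]
        intro h'
        have := h' 0 (by omega)
        simp only [zero_mul, add_zero] at this
        exact hc this.symm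
      · intro h'
        exact absurd (mem_univ _) h'
    · rw [if_neg h]
      symm
      apply sum_eq_zero
      intro c _
      rw [if_neg]
      intro h'
      apply h
      intro j hj
      have := h' 0 (by omega)
      simp only [zero_mul, add_zero] at this
      rw [h' j hj, this]
  have hsum : ∑ ψ : Fin (n + 1) → Fin r, (∏ x : Fin (n + 1), p x (ψ x)) * (cnt k n (ext ψ) : ℝ) = F := by
    simp_rw [hcnt, mul_sum]
    rw [sum_comm, hF]
    apply sum_congr rfl
    intro q hq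
    rw [sum_comm]
    apply sum_congr rfl
    intro c _
    exact sum_weight_ap hk p hp1 hq c
  have hlt : F < ∑ ψ : Fin (n + 1) → Fin r, (∏ x : Fin (n + 1), p x (ψ x)) * (cnt k n (ext ψ) : ℝ) := by
    calc F = ∑ ψ : Fin (n + 1) → Fin r, (∏ x : Fin (n + 1), p x (ψ x)) * F := by
          rw [← sum_mul, hw, one_mul]
      _ < ∑ ψ : Fin (n + 1) → Fin r, (∏ x : Fin (n + 1), p x (ψ x)) * (cnt k n (ext ψ) : ℝ) := by
          obtain ⟨ψ, _, hψ⟩ : ∃ ψ ∈ (univ : Finset (Fin (n + 1) → Fin r)),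
              0 < ∏ x : Fin (n + 1), p x (ψ x) := by
            by_contra hno
            push Not at hno
            have : ∑ ψ : Fin (n + 1) → Fin r, (∏ x : Fin (n + 1), p x (ψ x)) ≤ 0 :=
              sum_nonpos fun ψ hψ => hno ψ hψ
            linarith
          apply sum_lt_sum
          · intro φ _
            exact mul_le_mul_of_nonneg_left (hcon (ext φ)).le (hw0 φ)
          · exact ⟨ψ, mem_univ _, mul_lt_mul_of_pos_left (hcon (ext ψ)) hψ⟩
  linarith

end Derandom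

end Q120.KAP
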