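import Pool.Agent.Q120.KAPBasic

/-!
# Counting estimates for progressions meeting prescribed intervals
-/

namespace Q120.KAP

open Finset

/-- Pairs `(a, d)` with `1 ≤ a, d` and `a + t d ≤ m`. -/
def pr (t m : ℕ) : Finset (ℕ × ℕ) :=
  (Finset.Icc 1 m ×ˢ Finset.Icc 1 m).filter fun p => p.1 + t * p.2 ≤ m

lemma pairs_eq (k n : ℕ) : pairs k n = pr (k - 1) n := rfl

lemma card_pr (t m : ℕ) : (pr t m).card = ∑ d ∈ range m, (m - t * (d + 1)) := by
  unfold pr
  rw [card_filter, sum_product_right]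
  have h : Finset.Icc 1 m = (range m).image (fun d => d + 1) := by
    ext x
    simp only [mem_Icc, mem_image, mem_range]
    constructor
    · rintro ⟨h1, h2⟩
      exact ⟨x - 1, by omega, by omega⟩
    · rintro ⟨y, hy, rfl⟩
      omega
  conv_lhs => rw [h]
  rw [sum_image (fun x _ y _ hxy => by omega)]
  apply sum_congr rfl
  intro d _
  rw [← h, ← card_filter]
  have : (filter (fun x => x + t * (d + 1) ≤ m) (Icc 1 m)) = Icc 1 (m - t * (d + 1)) := by
    ext x
    simp only [mem_filter, mem_Icc]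
    omega
  rw [this, Nat.card_Icc]
  omega

lemma two_mul_sum_le (t m D : ℕ) :
    2 * t * ∑ d ∈ range D, (m - t * (d + 1)) + (m - t * D) ^ 2 ≤ m ^ 2 := by
  induction D with
  | zero => simp
  | succ D ih =>
    rw [sum_range_succ, mul_add]
    have key : 2 * t * (m - t * (D + 1)) + (m - t * (D + 1)) ^ 2 ≤ (m - t * D) ^ 2 := by
      rcases Nat.eq_zero_or_pos (m - t * (D + 1)) with h | h
      · rw [h]; simp
      · have h1 : m - t * D = m - t * (D + 1) + t := by
          have : t * (D + 1) = t * D + t := by ring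
          omega
        rw [h1]
        nlinarith
    omega

lemma le_two_mul_sum (t m D : ℕ) :
    (m - t) ^ 2 ≤ 2 * t * ∑ d ∈ range D, (m - t * (d + 1)) + (m - t * (D + 1)) ^ 2 := by
  induction D with
  | zero => simp
  | succ D ih =>
    rw [sum_range_succ, mul_add]
    have key : (m - t * (D + 1)) ^ 2 ≤ 2 * t * (m - t * (D + 1)) + (m - t * (D + 1 + 1)) ^ 2 := by
      have h0 : t * (D + 1 + 1) = t * (D + 1) + t := by ring
      rcases Nat.eq_zero_or_pos (m - t * (D + 1 + 1)) with h | h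
      · rw [h]
        have h1 : m - t * (D + 1) ≤ t := by omega
        nlinarith
      · have h1 : m - t * (D + 1) = m - t * (D + 1 + 1) + t := by omega
        rw [h1]
        nlinarith
    omega

lemma card_pr_le {t : ℕ} (ht : 1 ≤ t) (m : ℕ) : ((pr t m).card : ℝ) ≤ (m : ℝ) ^ 2 / (2 * t) := by
  have h := two_mul_sum_le t m m
  rw [← card_pr] at h
  have h1 : 2 * t * (pr t m).card ≤ m ^ 2 := by omega
  have h2 : (2 * t * (pr t m).card : ℝ) ≤ (m : ℝ) ^ 2 := by exact_mod_cast h1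
  have ht' : (0 : ℝ) < 2 * t := by
    have : (1 : ℝ) ≤ t := by exact_mod_cast ht
    linarith
  rw [le_div_iff₀ ht']
  linarith

lemma le_card_pr {t : ℕ} (ht : 1 ≤ t) (m : ℕ) :
    (m : ℝ) ^ 2 / (2 * t) - m ≤ ((pr t m).card : ℝ) := by
  have h := le_two_mul_sum t m m
  rw [← card_pr] at h
  have h0 : m - t * (m + 1) = 0 := by
    have : m + 1 ≤ t * (m + 1) := Nat.le_mul_of_pos_left _ ht
    omega
  rw [h0] at h
  have ht' : (0 : ℝ) < 2 * t := by
    have : (1 : ℝ) ≤ t := by exact_mod_cast ht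
    linarith
  have ht1 : (1 : ℝ) ≤ t := by exact_mod_cast ht
  rcases Nat.lt_or_ge m t with hmt | hmt
  · have h1 : (m : ℝ) < t := by exact_mod_cast hmt
    have h2 : (m : ℝ) ^ 2 / (2 * t) ≤ m := by
      rw [div_le_iff₀ ht']
      have : (0 : ℝ) ≤ m := by positivity
      nlinarith
    have : (0 : ℝ) ≤ ((pr t m).card : ℝ) := by positivity
    linarith
  · have h1 : ((m - t : ℕ) : ℝ) ^ 2 ≤ 2 * t * (pr t m).card := by
      have : (m - t) ^ 2 ≤ 2 * t * (pr t m).card := by simpa using h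
      exact_mod_cast this
    rw [Nat.cast_sub hmt] at h1
    rw [sub_le_iff_le_add, div_le_iff₀ ht']
    nlinarith

/-- Number of progressions whose `j`-th term lies in `A` and `l`-th term lies in `B`. -/
def NN (k n j l : ℕ) (A B : Finset ℕ) : ℕ :=
  ((pairs k n).filter fun p => p.1 + j * p.2 ∈ A ∧ p.1 + l * p.2 ∈ B).card

/-- Both terms in the same interval of length `L`. -/
lemma NN_same_le {k n j l : ℕ} (hk : 2 ≤ k) (hjl : j < l) (s L : ℕ) :
    (NN k n j l (Ioc s (s + L)) (Ioc s (s + L)) : ℝ) ≤ (L : ℝ) ^ 2 / (2 * ((l - j : ℕ) : ℝ)) := by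
  refine le_trans ?_ (card_pr_le (t := l - j) (by omega) L)
  have : NN k n j l (Ioc s (s + L)) (Ioc s (s + L)) ≤ (pr (l - j) L).card := by
    unfold NN
    apply card_le_card_of_injOn (fun p => (p.1 + j * p.2 - s, p.2))
    · intro p hp
      rw [mem_coe, mem_filter, mem_pairs hk, mem_Ioc, mem_Ioc] at hp
      obtain ⟨⟨h1, h2, h3⟩, h4, h5⟩ := hp
      rw [mem_coe]
      unfold pr
      rw [mem_filter, mem_product, mem_Icc, mem_Icc]
      have e : l * p.2 = j * p.2 + (l - j) * p.2 := by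
        rw [← add_mul]; congr 1; omega
      have h6 : p.2 ≤ (l - j) * p.2 := Nat.le_mul_of_pos_left _ (by omega)
      refine ⟨⟨⟨?_, ?_⟩, ?_, ?_⟩, ?_⟩ <;> simp only <;> omega
    · intro p hp q hq h
      rw [mem_coe, mem_filter, mem_pairs hk, mem_Ioc, mem_Ioc] at hp hq
      simp only [Prod.mk.injEq] at h
      obtain ⟨h1, h2⟩ := h
      have a1 := hp.2.1.1
      have a2 := hq.2.1.1
      rw [h2] at h1 a1
      exact Prod.ext (by omega) h2
  exact_mod_cast this

/-- The block `I₀`. -/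
def I0 (L : ℕ) : Finset ℕ := Ioc 0 L
/-- The block `I₁`. -/
def I1 (Y L : ℕ) : Finset ℕ := Ioc (Y - L) Y
/-- The block `I₂`. -/
def I2 (Y L : ℕ) : Finset ℕ := Ioc (Y + L) (Y + 2 * L)

/-- Hypotheses on the parameters. -/
structure Par (k n Y L : ℕ) : Prop where
  hk : 3 ≤ k
  hY : (k - 1) * Y ≤ n
  hY' : n < (k - 1) * (Y + 1)
  hL : 4 * k * L ≤ Y

lemma NN12_ge {k n Y L j l : ℕ} (h : Par k n Y L) (hjl : j < l) (hlk : l < k) :
    L * (L / (l - j)) ≤ NN k n j l (I1 Y L) (I2 Y L) := by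
  obtain ⟨hk, hY, hY', hL⟩ := h
  obtain ⟨t, rfl⟩ : ∃ t, l = j + t := ⟨l - j, by omega⟩
  have ht : 1 ≤ t := by omega
  rw [Nat.add_sub_cancel_left]
  have hcard : ((I1 Y L) ×ˢ (range (L / t))).card = L * (L / t) := by
    unfold I1
    rw [card_product, Nat.card_Ioc, card_range]
    congr 1
    have : 4 * k * L = 4 * (k * L) := by ring
    have : L ≤ k * L := Nat.le_mul_of_pos_left _ (by omega)
    omega
  rw [← hcard]
  unfold NN
  apply card_le_card_of_injOn
    (fun q => (q.1 - j * ((Y + L - q.1) / t + 1 + q.2), (Y + L - q.1) / t + 1 + q.2))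
  · rintro ⟨x, s⟩ hq
    rw [mem_coe, mem_product, mem_range] at hq
    obtain ⟨hx, hs⟩ := hq
    simp only at hx hs
    unfold I1 at hx
    rw [mem_Ioc] at hx
    set d := (Y + L - x) / t + 1 + s with hd
    -- bounds on `t * d`
    have h1 : t * ((Y + L - x) / t) ≤ Y + L - x := Nat.mul_div_le _ _
    have h2 : Y + L - x < t * ((Y + L - x) / t) + t := Nat.lt_mul_div_succ _ (by omega)
    have h3 : t * (s + 1) ≤ L := by
      calc t * (s + 1) ≤ t * (L / t) := Nat.mul_le_mul_left _ (by omega)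
        _ ≤ L := Nat.mul_div_le _ _
    have e1 : t * d = t * ((Y + L - x) / t) + t + t * s := by rw [hd]; ring
    have e2 : t * (s + 1) = t * s + t := by ring
    have h4 : Y + L < x + t * d := by omega
    have h5 : x + t * d ≤ Y + 2 * L := by omega
    have h6 : d ≤ t * d := Nat.le_mul_of_pos_left _ ht
    have hkL : 4 * k * L = 4 * (k * L) := by ring
    have h7 : d ≤ 3 * L := by omega
    have h8 : j * d ≤ (k - 1) * (3 * L) := Nat.mul_le_mul (by omega) h7
    have h9 : (k - 1) * d ≤ (k - 1) * (3 * L) := Nat.mul_le_mul (by omega) h7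
    have h10 : (k - 1) * (3 * L) + 3 * L = 3 * (k * L) := by
      obtain ⟨k', rfl⟩ : ∃ k', k = k' + 1 := ⟨k - 1, by omega⟩
      rw [Nat.add_sub_cancel]; ring
    have h11 : 2 * Y ≤ (k - 1) * Y := Nat.mul_le_mul_right _ (by omega)
    have hL1 : 1 ≤ L := by
      rcases Nat.eq_zero_or_pos L with h0 | h0
      · subst h0; omega
      · exact h0
    have h12 : j * d ≤ x := by omega
    have hd1 : 1 ≤ d := by
      rw [hd]; exact le_trans (Nat.le_add_left 1 _) (Nat.le_add_right _ s)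
    change (x - j * d, d) ∈ ((filter (fun p : ℕ × ℕ => p.1 + j * p.2 ∈ I1 Y L ∧
      p.1 + (j + t) * p.2 ∈ I2 Y L) (pairs k n) : Finset (ℕ × ℕ)) : Set (ℕ × ℕ))
    rw [mem_coe, mem_filter, mem_pairs (by omega)]
    simp only
    have e3 : x - j * d + j * d = x := by omega
    have e4 : (j + t) * d = j * d + t * d := by ring
    refine ⟨⟨by omega, by omega, by omega⟩, ?_, ?_⟩
    · rw [e3]; unfold I1; rw [mem_Ioc]; exact hx
    · rw [e4]; unfold I2; rw [mem_Ioc]; omega
  · rintro ⟨x, s⟩ hq ⟨x', s'⟩ hq' heq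
    rw [mem_coe, mem_product, mem_range] at hq hq'
    obtain ⟨hx, hs⟩ := hq
    obtain ⟨hx', hs'⟩ := hq'
    simp only at hx hs hx' hs'
    unfold I1 at hx hx'
    rw [mem_Ioc] at hx hx'
    simp only [Prod.mk.injEq] at heq
    obtain ⟨he1, he2⟩ := heq
    have bound : ∀ x s : ℕ, Y - L < x → x ≤ Y → s < L / t →
        j * ((Y + L - x) / t + 1 + s) ≤ x := by
      intro x s hx1 hx2 hs
      have h1 : t * ((Y + L - x) / t) ≤ Y + L - x := Nat.mul_div_le _ _
      have h3 : t * (s + 1) ≤ L := by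
        calc t * (s + 1) ≤ t * (L / t) := Nat.mul_le_mul_left _ (by omega)
          _ ≤ L := Nat.mul_div_le _ _
      set d := (Y + L - x) / t + 1 + s with hd
      have e1 : t * d = t * ((Y + L - x) / t) + t + t * s := by rw [hd]; ring
      have e2 : t * (s + 1) = t * s + t := by ring
      have h6 : d ≤ t * d := Nat.le_mul_of_pos_left _ ht
      have h7 : d ≤ 3 * L := by omega
      have h8 : j * d ≤ (k - 1) * (3 * L) := Nat.mul_le_mul (by omega) h7
      have hkL : 4 * k * L = 4 * (k * L) := by ring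
      have h10 : (k - 1) * (3 * L) + 3 * L = 3 * (k * L) := by
        obtain ⟨k', rfl⟩ : ∃ k', k = k' + 1 := ⟨k - 1, by omega⟩
        rw [Nat.add_sub_cancel]; ring
      omega
    have b1 := bound x s hx.1 hx.2 hs
    have b2 := bound x' s' hx'.1 hx'.2 hs'
    rw [he2] at he1 b1
    have hxx : x = x' := by omega
    subst hxx
    have : s = s' := by omega
    subst this
    rfl

lemma NN01_ge {k n Y L l : ℕ} (h : Par k n Y L) (hl : 1 ≤ l) :
    L * (L / l) ≤ NN k n 0 l (I0 L) (I1 Y L) := by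
  obtain ⟨hk, hY, hY', hL⟩ := h
  have hkL : 4 * k * L = 4 * (k * L) := by ring
  have hkL2 : L ≤ k * L := Nat.le_mul_of_pos_left _ (by omega)
  have hcard : ((I0 L) ×ˢ (range (L / l))).card = L * (L / l) := by
    unfold I0
    rw [card_product, Nat.card_Ioc, card_range, Nat.sub_zero]
  rw [← hcard]
  unfold NN
  apply card_le_card_of_injOn (fun q => (q.1, (Y - L - q.1) / l + 1 + q.2))
  · rintro ⟨x, s⟩ hq
    rw [mem_coe, mem_product, mem_range] at hq
    obtain ⟨hx, hs⟩ := hq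
    simp only at hx hs
    unfold I0 at hx
    rw [mem_Ioc] at hx
    set d := (Y - L - x) / l + 1 + s with hd
    have h1 : l * ((Y - L - x) / l) ≤ Y - L - x := Nat.mul_div_le _ _
    have h2 : Y - L - x < l * ((Y - L - x) / l) + l := Nat.lt_mul_div_succ _ (by omega)
    have h3 : l * (s + 1) ≤ L := by
      calc l * (s + 1) ≤ l * (L / l) := Nat.mul_le_mul_left _ (by omega)
        _ ≤ L := Nat.mul_div_le _ _
    have e1 : l * d = l * ((Y - L - x) / l) + l + l * s := by rw [hd]; ring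
    have e2 : l * (s + 1) = l * s + l := by ring
    have h4 : Y - L < x + l * d := by omega
    have h5 : x + l * d ≤ Y := by omega
    have h6 : d ≤ l * d := Nat.le_mul_of_pos_left _ hl
    have h7 : (k - 1) * d + (k - 1) * x ≤ (k - 1) * Y := by
      rw [← mul_add]
      exact Nat.mul_le_mul_left _ (by omega)
    have h8 : x ≤ (k - 1) * x := Nat.le_mul_of_pos_left _ (by omega)
    have hd1 : 1 ≤ d := by
      rw [hd]; exact le_trans (Nat.le_add_left 1 _) (Nat.le_add_right _ s)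
    change (x, d) ∈ ((filter (fun p : ℕ × ℕ => p.1 + 0 * p.2 ∈ I0 L ∧
      p.1 + l * p.2 ∈ I1 Y L) (pairs k n) : Finset (ℕ × ℕ)) : Set (ℕ × ℕ))
    rw [mem_coe, mem_filter, mem_pairs (by omega)]
    simp only [zero_mul, add_zero]
    refine ⟨⟨by omega, by omega, by omega⟩, ?_, ?_⟩
    · unfold I0; rw [mem_Ioc]; exact hx
    · unfold I1; rw [mem_Ioc]; omega
  · rintro ⟨x, s⟩ hq ⟨x', s'⟩ hq' heq
    simp only [Prod.mk.injEq] at heq
    obtain ⟨he1, he2⟩ := heq
    subst he1
    have : s = s' := by omega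
    subst this
    rfl

lemma div_add_le (a b c : ℕ) (hc : 1 ≤ c) : (a + b) / c ≤ a / c + (b / c + 1) := by
  rw [Nat.div_le_iff_le_mul_add_pred (by omega)]
  have h1 : a < c * (a / c) + c := Nat.lt_mul_div_succ _ (by omega)
  have h2 : b < c * (b / c) + c := Nat.lt_mul_div_succ _ (by omega)
  have e : c * (a / c + (b / c + 1)) = c * (a / c) + c * (b / c) + c := by ring
  omega

lemma NN02_le {k n Y L l : ℕ} (h : Par k n Y L) (hl : 1 ≤ l) :
    NN k n 0 l (I0 L) (I2 Y L) ≤ L * (L / l + 1) := by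
  obtain ⟨hk, hY, hY', hL⟩ := h
  have hkL : 4 * k * L = 4 * (k * L) := by ring
  have hkL2 : L ≤ k * L := Nat.le_mul_of_pos_left _ (by omega)
  -- the relevant pairs are in a sigma type
  have h1 : NN k n 0 l (I0 L) (I2 Y L) ≤
      ((I0 L).sigma fun a => Ioc ((Y + L - a) / l) ((Y + 2 * L - a) / l)).card := by
    unfold NN
    apply card_le_card_of_injOn (fun p => (⟨p.1, p.2⟩ : Σ _ : ℕ, ℕ))
    · intro p hp
      rw [mem_coe, mem_filter] at hp
      simp only [zero_mul, add_zero] at hp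
      rw [mem_coe, mem_sigma]
      obtain ⟨_, h2, h3⟩ := hp
      refine ⟨h2, ?_⟩
      unfold I0 at h2
      unfold I2 at h3
      rw [mem_Ioc] at h2 h3 ⊢
      change (Y + L - p.1) / l < p.2 ∧ p.2 ≤ (Y + 2 * L - p.1) / l
      constructor
      · rw [Nat.div_lt_iff_lt_mul (by omega), mul_comm p.2 l]; omega
      · rw [Nat.le_div_iff_mul_le (by omega), mul_comm p.2 l]; omega
    · intro p _ q _ hpq
      simp only [Sigma.mk.injEq] at hpq
      exact Prod.ext hpq.1 (eq_of_heq hpq.2)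
  refine h1.trans ?_
  rw [card_sigma]
  have h2 : ∀ a ∈ I0 L, (Ioc ((Y + L - a) / l) ((Y + 2 * L - a) / l)).card ≤ L / l + 1 := by
    intro a ha
    unfold I0 at ha
    rw [mem_Ioc] at ha
    rw [Nat.card_Ioc]
    have e : Y + 2 * L - a = (Y + L - a) + L := by omega
    rw [e]
    have h5 := div_add_le (Y + L - a) L l hl
    exact Nat.sub_le_iff_le_add'.2 h5
  calc ∑ a ∈ I0 L, (Ioc ((Y + L - a) / l) ((Y + 2 * L - a) / l)).card
      ≤ ∑ _a ∈ I0 L, (L / l + 1) := sum_le_sum h2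
    _ = L * (L / l + 1) := by
      rw [sum_const, smul_eq_mul]
      unfold I0
      rw [Nat.card_Ioc, Nat.sub_zero]

lemma NN02_zero_one {k n Y L : ℕ} (h : Par k n Y L) : NN k n 0 1 (I0 L) (I2 Y L) = 0 := by
  obtain ⟨hk, hY, hY', hL⟩ := h
  unfold NN
  rw [card_eq_zero, filter_eq_empty_iff]
  rintro ⟨a, d⟩ hp ⟨h1, h2⟩
  rw [mem_pairs (by omega)] at hp
  simp only [zero_mul, add_zero, one_mul] at hp h1 h2
  unfold I0 at h1
  unfold I2 at h2
  rw [mem_Ioc] at h1 h2
  -- `(k - 1) (a + d) ≤ n + (k - 2) a`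
  obtain ⟨k', rfl⟩ : ∃ k', k = k' + 2 := ⟨k - 2, by omega⟩
  have e1 : k' + 2 - 1 = k' + 1 := by omega
  rw [e1] at hp hY hY'
  have h3 : (k' + 1) * (Y + 1 + L) ≤ (k' + 1) * (a + d) := Nat.mul_le_mul_left _ (by omega)
  have h4 : k' * a ≤ k' * L := Nat.mul_le_mul_left _ h1.2
  have e2 : (k' + 1) * (Y + 1 + L) = (k' + 1) * (Y + 1) + k' * L + L := by ring
  have e3 : (k' + 1) * (a + d) = k' * a + a + (k' + 1) * d := by ring
  omega

lemma NN02_pos {k n Y L j l : ℕ} (h : Par k n Y L) (hj : 1 ≤ j) (hlk : l < k) :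
    NN k n j l (I0 L) (I2 Y L) = 0 := by
  obtain ⟨hk, hY, hY', hL⟩ := h
  unfold NN
  rw [card_eq_zero, filter_eq_empty_iff]
  rintro ⟨a, d⟩ hp ⟨h1, h2⟩
  rw [mem_pairs (by omega)] at hp
  simp only at hp h1 h2
  unfold I0 at h1
  unfold I2 at h2
  rw [mem_Ioc] at h1 h2
  have h3 : d ≤ j * d := Nat.le_mul_of_pos_left _ hj
  have h4 : l * d ≤ k * L := Nat.mul_le_mul (by omega) (by omega)
  have hkL : 4 * k * L = 4 * (k * L) := by ring
  omega

lemma NN_rev {k n j l : ℕ} (hk : 2 ≤ k) (hjl : j < l) {A B : Finset ℕ}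
    (h : ∀ x ∈ A, ∀ y ∈ B, y ≤ x) : NN k n j l A B = 0 := by
  unfold NN
  rw [card_eq_zero, filter_eq_empty_iff]
  rintro ⟨a, d⟩ hp ⟨h1, h2⟩
  rw [mem_pairs hk] at hp
  simp only at hp h1 h2
  have h3 := h _ h1 _ h2
  have h4 : (j + 1) * d ≤ l * d := Nat.mul_le_mul_right _ hjl
  have h5 : (j + 1) * d = j * d + d := by ring
  omega

end Q120.KAP
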