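import Mathlib

/-!
# Monochromatic `k`-term arithmetic progressions: definitions
-/

namespace Q120.KAP

/-- `S` is a `k`-term arithmetic progression `{a, a + d, …, a + (k - 1) d}` contained in
`{1, …, n}`, with `a ≥ 1` and `d ≥ 1`. -/
def IsKAP (k n : ℕ) (S : Finset ℕ) : Prop :=
  ∃ a d : ℕ, 1 ≤ a ∧ 1 ≤ d ∧ a + (k - 1) * d ≤ n ∧ S = (Finset.range k).image fun j => a + j * d

/-- `monoCount k n χ` is the number of monochromatic `k`-APs in `{1, …, n}` under `χ`. -/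
noncomputable def monoCount (k n : ℕ) {r : ℕ} (χ : ℕ → Fin r) : ℕ :=
  {S : Finset ℕ | IsKAP k n S ∧ ∀ x ∈ S, ∀ y ∈ S, χ x = χ y}.ncard

end Q120.KAP
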