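import Pool.Agent.Q120.KAPMain

/-!
# Beating the random rate: final assembly
-/

namespace Q120.KAP

open Finset

/-- The sign attached to a colour. -/
def sgn {r : ℕ} (c : Fin r) : ℝ := if c.val = 0 then 1 else if c.val = 1 then -1 else 0

lemma sum_sgn {r : ℕ} (hr : 2 ≤ r) : ∑ c : Fin r, sgn c = 0 ∧ ∑ c : Fin r, (sgn c) ^ 2 = 2 := by
  obtain ⟨s, rfl⟩ : ∃ s, r = s + 2 := ⟨r - 2, by omega⟩
  constructor
  · rw [Fin.sum_univ_succ, Fin.sum_univ_succ]
    have : ∑ i : Fin s, sgn (i.succ.succ) = 0 := by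
      apply sum_eq_zero
      intro i _
      simp [sgn]
    rw [this]
    simp [sgn]
  · rw [Fin.sum_univ_succ, Fin.sum_univ_succ]
    have : ∑ i : Fin s, (sgn (i.succ.succ)) ^ 2 = 0 := by
      apply sum_eq_zero
      intro i _
      simp [sgn]
    rw [this]
    simp [sgn]
    norm_num

lemma abs_sgn_le {r : ℕ} (c : Fin r) : |sgn c| ≤ 1 := by
  unfold sgn
  split_ifs <;> norm_num

lemma E1_mul (a : ℝ) (g : ℕ → ℝ) (k : ℕ) : E1 (fun j => a * g j) k = a * E1 g k := by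
  unfold E1; rw [mul_sum]

lemma E2_mul (a : ℝ) (g : ℕ → ℝ) (k : ℕ) : E2 (fun j => a * g j) k = a ^ 2 * E2 g k := by
  unfold E2
  rw [mul_sum]
  apply sum_congr rfl
  intro l _
  rw [mul_sum]
  apply sum_congr rfl
  intro j _
  ring

/-- Existence of a good colouring in terms of the second order form. -/
lemma exists_good {k n r : ℕ} (hk : 2 ≤ k) (hr : 2 ≤ r) (g : ℕ → ℝ) (hg : ∀ x, |g x| ≤ 1)
    {η : ℝ} (h0 : 0 ≤ η) (h1 : η ≤ 1) :
    ∃ χ : ℕ → Fin r, (cnt k n χ : ℝ) ≤ (1 / (r : ℝ)) ^ k * ((r : ℝ) * (pairs k n).card +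
      2 * η ^ 2 * (∑ p ∈ pairs k n, E2 (fun j => g (p.1 + j * p.2)) k) +
      (r : ℝ) * (4 ^ k * η ^ 3) * (pairs k n).card) := by
  have : NeZero r := ⟨by omega⟩
  have hrpos : (0 : ℝ) < r := by exact_mod_cast (show 0 < r by omega)
  set u : ℝ := 1 / (r : ℝ) with hu
  have hu0 : 0 < u := by positivity
  let p : ℕ → Fin r → ℝ := fun x c => u * (1 + η * (sgn c * g x))
  have habs : ∀ (c : Fin r) (x : ℕ), |sgn c * g x| ≤ 1 := by
    intro c x
    rw [abs_mul]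
    have h2 := abs_sgn_le c
    have h3 := hg x
    have h4 := abs_nonneg (sgn c)
    have h5 := abs_nonneg (g x)
    nlinarith
  have hp0 : ∀ x c, 0 ≤ p x c := by
    intro x c
    have h2 := habs c x
    rw [abs_le] at h2
    have : 0 ≤ 1 + η * (sgn c * g x) := by nlinarith
    exact mul_nonneg hu0.le this
  have hp1 : ∀ x, ∑ c, p x c = 1 := by
    intro x
    change ∑ c : Fin r, u * (1 + η * (sgn c * g x)) = 1
    rw [← mul_sum, sum_add_distrib, ← mul_sum, ← sum_mul, (sum_sgn hr).1]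
    simp only [sum_const, card_univ, Fintype.card_fin, nsmul_eq_mul, mul_one, zero_mul, mul_zero,
      add_zero]
    rw [hu]; field_simp
  obtain ⟨χ, hχ⟩ := exists_colouring (n := n) hk p hp0 hp1
  refine ⟨χ, hχ.trans ?_⟩
  -- estimate each progression
  have hterm : ∀ q ∈ pairs k n, ∑ c, ∏ j ∈ range k, p (q.1 + j * q.2) c ≤
      u ^ k * ((r : ℝ) + 2 * η ^ 2 * E2 (fun j => g (q.1 + j * q.2)) k +
        (r : ℝ) * (4 ^ k * η ^ 3)) := by
    intro q _
    set G : ℕ → ℝ := fun j => g (q.1 + j * q.2) with hG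
    have h2 : ∀ c : Fin r, ∏ j ∈ range k, p (q.1 + j * q.2) c ≤
        u ^ k * (1 + η * (sgn c * E1 G k) + η ^ 2 * (sgn c ^ 2 * E2 G k) + 4 ^ k * η ^ 3) := by
      intro c
      have h3 : ∏ j ∈ range k, p (q.1 + j * q.2) c =
          u ^ k * ∏ j ∈ range k, (1 + η * (sgn c * G j)) := by
        change ∏ j ∈ range k, u * (1 + η * (sgn c * g (q.1 + j * q.2))) = _
        rw [prod_mul_distrib, prod_const, card_range]
      rw [h3]
      apply mul_le_mul_of_nonneg_left _ (by positivity)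
      have h4 := expand (fun j => sgn c * G j) (fun j => habs c _) h0 h1 k
      rw [E1_mul, E2_mul] at h4
      have := (abs_le.1 h4).2
      linarith
    calc ∑ c, ∏ j ∈ range k, p (q.1 + j * q.2) c
        ≤ ∑ c : Fin r, u ^ k * (1 + η * (sgn c * E1 G k) + η ^ 2 * (sgn c ^ 2 * E2 G k) +
            4 ^ k * η ^ 3) := sum_le_sum fun c _ => h2 c
      _ = u ^ k * ((r : ℝ) + 2 * η ^ 2 * E2 G k + (r : ℝ) * (4 ^ k * η ^ 3)) := by
          rw [← mul_sum, sum_add_distrib, sum_add_distrib, sum_add_distrib, ← mul_sum, ← mul_sum,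
            ← sum_mul, ← sum_mul, (sum_sgn hr).1, (sum_sgn hr).2]
          simp only [sum_const, card_univ, Fintype.card_fin, nsmul_eq_mul, mul_one, zero_mul,
            mul_zero, add_zero]
          ring
  calc ∑ q ∈ pairs k n, ∑ c, ∏ j ∈ range k, p (q.1 + j * q.2) c
      ≤ ∑ q ∈ pairs k n, u ^ k * ((r : ℝ) + 2 * η ^ 2 * E2 (fun j => g (q.1 + j * q.2)) k +
        (r : ℝ) * (4 ^ k * η ^ 3)) := sum_le_sum hterm
    _ = _ := by
        rw [← mul_sum, sum_add_distrib, sum_add_distrib, ← mul_sum]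
        simp only [sum_const, nsmul_eq_mul]
        ring

/-! ### Interpolation -/

lemma discrete_ivt (f : ℕ → ℝ) (n : ℕ) (v K : ℝ) (hK : 0 ≤ K) (h0 : v ≤ f 0) (hn : f n ≤ v)
    (hstep : ∀ m, |f (m + 1) - f m| ≤ K) : ∃ m, |f m - v| ≤ K := by
  classical
  have hex : ∃ m, f m ≤ v := ⟨n, hn⟩
  set m := Nat.find hex with hm
  have hmv : f m ≤ v := Nat.find_spec hex
  rcases Nat.eq_zero_or_pos m with h | h
  · refine ⟨0, ?_⟩
    rw [h] at hmv
    have : f 0 = v := le_antisymm hmv h0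
    rw [this]; simpa using hK
  · refine ⟨m, ?_⟩
    have h1 : ¬ f (m - 1) ≤ v := Nat.find_min hex (by omega)
    have h2 := hstep (m - 1)
    rw [show m - 1 + 1 = m by omega] at h2
    push Not at h1
    rw [abs_le] at h2 ⊢
    constructor <;> linarith

/-- Changing the colouring at one point changes the count by at most `k n`. -/
lemma cnt_change {k n r : ℕ} (hk : 2 ≤ k) (χ χ' : ℕ → Fin r) (x₀ : ℕ)
    (h : ∀ x, x ≠ x₀ → χ x = χ' x) : (cnt k n χ : ℝ) ≤ cnt k n χ' + k * n := by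
  classical
  have h1 : ((pairs k n).filter fun p => ∀ j < k, χ (p.1 + j * p.2) = χ p.1) ⊆
      ((pairs k n).filter fun p => ∀ j < k, χ' (p.1 + j * p.2) = χ' p.1) ∪
      ((range k ×ˢ Finset.Icc 1 n).image fun q => (x₀ - q.1 * q.2, q.2)) := by
    intro p hp
    rw [mem_filter] at hp
    obtain ⟨hp1, hp2⟩ := hp
    rw [mem_union]
    by_cases hx : ∃ j < k, p.1 + j * p.2 = x₀
    · right
      obtain ⟨j, hj, hjx⟩ := hx
      have h3 := (mem_pairs hk).1 hp1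
      have h4 : p.2 ≤ (k - 1) * p.2 := Nat.le_mul_of_pos_left _ (by omega)
      rw [mem_image]
      refine ⟨(j, p.2), ?_, ?_⟩
      · rw [mem_product, mem_range, mem_Icc]
        exact ⟨hj, h3.2.1, by omega⟩
      · exact Prod.ext (by simp only; omega) rfl
    · left
      push Not at hx
      rw [mem_filter]
      refine ⟨hp1, fun j hj => ?_⟩
      rw [← h _ (hx j hj), ← h p.1 (by have := hx 0 (by omega); simpa using this)]
      exact hp2 j hj
  have h2 : cnt k n χ ≤ cnt k n χ' + k * n := by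
    unfold cnt
    refine (card_le_card h1).trans ((card_union_le _ _).trans ?_)
    apply Nat.add_le_add_left
    refine card_image_le.trans ?_
    rw [card_product, card_range, Nat.card_Icc]
    simp
  exact_mod_cast h2

lemma interpolate {k n r : ℕ} [NeZero r] (hk : 2 ≤ k) (χ₁ : ℕ → Fin r) (v : ℝ)
    (hv : v ≤ (pairs k n).card) (h1 : (cnt k n χ₁ : ℝ) ≤ v) :
    ∃ χ : ℕ → Fin r, |(cnt k n χ : ℝ) - v| ≤ k * n := by
  classical
  let χm : ℕ → ℕ → Fin r := fun m x => if x ≤ m then χ₁ x else 0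
  have h0 : v ≤ (cnt k n (χm 0) : ℝ) := by
    have : cnt k n (χm 0) = (pairs k n).card := by
      unfold cnt
      rw [filter_true_of_mem]
      intro p hp j _
      have h3 := (mem_pairs hk).1 hp
      change (if p.1 + j * p.2 ≤ 0 then χ₁ (p.1 + j * p.2) else 0) = if p.1 ≤ 0 then χ₁ p.1 else 0
      rw [if_neg (by omega), if_neg (by omega)]
    rw [this]; exact hv
  have hn : (cnt k n (χm n) : ℝ) ≤ v := by
    have : cnt k n (χm n) = cnt k n χ₁ := by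
      unfold cnt
      congr 1
      apply filter_congr
      intro p hp
      have h3 := (mem_pairs hk).1 hp
      have e : ∀ j < k, χm n (p.1 + j * p.2) = χ₁ (p.1 + j * p.2) := by
        intro j hj
        have := lt_of_mem_pairs hk hp hj
        change (if p.1 + j * p.2 ≤ n then χ₁ (p.1 + j * p.2) else 0) = _
        rw [if_pos (by omega)]
      have e0 := e 0 (by omega)
      simp only [zero_mul, add_zero] at e0
      constructor
      · intro hh j hj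
        rw [← e j hj, ← e0]; exact hh j hj
      · intro hh j hj
        rw [e j hj, e0]; exact hh j hj
    rw [this]; exact h1
  obtain ⟨m, hm⟩ := discrete_ivt (fun m => (cnt k n (χm m) : ℝ)) n v (k * n) (by positivity) h0 hn
    (by
      intro m
      have a1 := cnt_change (n := n) hk (χm (m + 1)) (χm m) (m + 1) (by
        intro x hx
        change (if x ≤ m + 1 then χ₁ x else 0) = if x ≤ m then χ₁ x else 0
        by_cases hxm : x ≤ m
        · rw [if_pos hxm, if_pos (by omega)]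
        · rw [if_neg hxm, if_neg (by omega)])
      have a2 := cnt_change (n := n) hk (χm m) (χm (m + 1)) (m + 1) (by
        intro x hx
        change (if x ≤ m then χ₁ x else 0) = if x ≤ m + 1 then χ₁ x else 0
        by_cases hxm : x ≤ m
        · rw [if_pos hxm, if_pos (by omega)]
        · rw [if_neg hxm, if_neg (by omega)])
      rw [abs_le]
      constructor <;> linarith)
  exact ⟨χm m, hm⟩

/-! ### Assembly -/

lemma main_upper {k r : ℕ} (hk : 3 ≤ k) (hr : 2 ≤ r) :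
    ∃ c : ℝ, 0 < c ∧ ∃ C : ℝ, 0 ≤ C ∧ ∃ n₀ : ℕ, ∀ n : ℕ, n₀ ≤ n → ∃ χ : ℕ → Fin r,
      (cnt k n χ : ℝ) ≤ (1 / (2 * ((k : ℝ) - 1) * (r : ℝ) ^ (k - 1)) - c) * (n : ℝ) ^ 2 +
        C * n := by
  have hk0 : (3 : ℝ) ≤ k := by exact_mod_cast hk
  have hr0 : (2 : ℝ) ≤ r := by exact_mod_cast hr
  have hkpos : (0 : ℝ) < k := by linarith
  have hrpos : (0 : ℝ) < r := by linarith
  set u : ℝ := (1 / (r : ℝ)) ^ k with hu
  have hu0 : 0 < u := by positivity
  -- parameters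
  set α : ℝ := 1 / (2 * (k : ℝ) ^ 2) with hα
  have hα0 : 0 < α := by positivity
  have hα1 : α ≤ 1 := by
    rw [hα, div_le_one (by positivity)]; nlinarith
  set c₁ : ℝ := 1 / (8 * (k : ℝ) ^ 2) with hc₁
  have hc₁0 : 0 < c₁ := by positivity
  set A : ℝ := α / 2 * c₁ ^ 2 with hA
  have hA0 : 0 < A := by positivity
  have hA1 : A ≤ 1 := by
    have : c₁ ≤ 1 := by rw [hc₁, div_le_one (by positivity)]; nlinarith
    have : c₁ ^ 2 ≤ 1 := by nlinarith
    rw [hA]; nlinarith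
  set η : ℝ := A / ((r : ℝ) * 4 ^ k) with hη
  have h4k : (1 : ℝ) ≤ 4 ^ k := one_le_pow₀ (by norm_num)
  have hden : (1 : ℝ) ≤ (r : ℝ) * 4 ^ k := by nlinarith
  have hη0 : 0 < η := by positivity
  have hη1 : η ≤ 1 := by
    rw [hη, div_le_one (by positivity)]; linarith
  refine ⟨u * η ^ 2 * A, by positivity, u * (2 * η ^ 2 * (2 * (k : ℝ) ^ 2)), by positivity,
    8 * k ^ 2, ?_⟩
  intro n hn
  -- the integers `Y` and `L`
  set Y := n / (k - 1) with hY
  set L := Y / (4 * k) with hL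
  have hpar : Par k n Y L := by
    refine ⟨hk, Nat.mul_div_le _ _, ?_, ?_⟩
    · have := Nat.lt_mul_div_succ n (show 0 < k - 1 by omega)
      exact this
    · exact Nat.mul_div_le _ _
  have hLn : L ≤ n := le_trans (Nat.div_le_self _ _) (Nat.div_le_self _ _)
  have hLge : c₁ * n ≤ L := by
    -- `L = n / ((k - 1) * (4 k))`
    have e1 : L = n / ((k - 1) * (4 * k)) := by rw [hL, hY, Nat.div_div_eq_div_mul]
    have hpos : 0 < (k - 1) * (4 * k) := Nat.mul_pos (by omega) (by omega)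
    have h2 : n < (k - 1) * (4 * k) * L + (k - 1) * (4 * k) := by
      rw [e1]; exact Nat.lt_mul_div_succ _ hpos
    have h3 : (k - 1) * (4 * k) ≤ 4 * k ^ 2 := by
      calc (k - 1) * (4 * k) ≤ k * (4 * k) := Nat.mul_le_mul_right _ (by omega)
        _ = 4 * k ^ 2 := by ring
    have h4 : n < 4 * k ^ 2 * L + 4 * k ^ 2 := by
      calc n < (k - 1) * (4 * k) * L + (k - 1) * (4 * k) := h2
        _ ≤ 4 * k ^ 2 * L + 4 * k ^ 2 := Nat.add_le_add (Nat.mul_le_mul_right _ h3) h3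
    have h5 : (n : ℝ) < 4 * (k : ℝ) ^ 2 * L + 4 * (k : ℝ) ^ 2 := by exact_mod_cast h4
    have h6 : 8 * (k : ℝ) ^ 2 ≤ n := by exact_mod_cast hn
    rw [hc₁, div_mul_eq_mul_div, one_mul, div_le_iff₀ (by positivity)]
    nlinarith
  obtain ⟨χ, hχ⟩ := exists_good (n := n) (by omega : 2 ≤ k) hr (pert α Y L)
    (pert_le_one hpar hα0.le hα1) hη0.le hη1
  refine ⟨χ, hχ.trans ?_⟩
  have hS := S_le hpar hα0.le hα1
  set S := ∑ p ∈ pairs k n, E2 (fun j => pert α Y L (p.1 + j * p.2)) k with hSdef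
  -- upper bound for `S`
  have hS2 : S ≤ -(A * (n : ℝ) ^ 2) + 2 * (k : ℝ) ^ 2 * n := by
    have e1 : (k : ℝ) ^ 2 * (α ^ 2 * (L : ℝ) ^ 2 + 2 * L) - α * (L : ℝ) ^ 2 =
        -(α / 2) * (L : ℝ) ^ 2 + 2 * (k : ℝ) ^ 2 * L := by
      have : (k : ℝ) ^ 2 * α = 1 / 2 := by rw [hα]; field_simp
      have : (k : ℝ) ^ 2 * (α ^ 2 * (L : ℝ) ^ 2) = α / 2 * (L : ℝ) ^ 2 := by
        calc (k : ℝ) ^ 2 * (α ^ 2 * (L : ℝ) ^ 2) = ((k : ℝ) ^ 2 * α) * α * (L : ℝ) ^ 2 := by ring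
          _ = α / 2 * (L : ℝ) ^ 2 := by rw [this]; ring
      linarith
    rw [e1] at hS
    have h2 : (c₁ * n) ^ 2 ≤ (L : ℝ) ^ 2 := by
      apply pow_le_pow_left₀ (by positivity) hLge
    have h3 : (L : ℝ) ≤ n := by exact_mod_cast hLn
    have h4 : (0 : ℝ) ≤ 2 * (k : ℝ) ^ 2 := by positivity
    have h5 := mul_le_mul_of_nonneg_left h3 h4
    have h6 := mul_le_mul_of_nonneg_left h2 (show 0 ≤ α / 2 by positivity)
    have e2 : α / 2 * (c₁ * n) ^ 2 = A * (n : ℝ) ^ 2 := by rw [hA]; ring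
    linarith
  -- bound for the number of progressions
  have hN : ((pairs k n).card : ℝ) ≤ (n : ℝ) ^ 2 / (2 * ((k : ℝ) - 1)) := by
    have h := card_pr_le (t := k - 1) (by omega) n
    rw [← pairs_eq] at h
    rw [Nat.cast_sub (by omega : 1 ≤ k)] at h
    simpa using h
  have hN2 : ((pairs k n).card : ℝ) ≤ (n : ℝ) ^ 2 := by
    refine hN.trans (div_le_self (by positivity) (by linarith))
  have hur : u * (r : ℝ) * ((n : ℝ) ^ 2 / (2 * ((k : ℝ) - 1))) =
      1 / (2 * ((k : ℝ) - 1) * (r : ℝ) ^ (k - 1)) * (n : ℝ) ^ 2 := by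
    have h2 : u * (r : ℝ) = 1 / (r : ℝ) ^ (k - 1) := by
      rw [hu]
      obtain ⟨k', rfl⟩ : ∃ k', k = k' + 1 := ⟨k - 1, by omega⟩
      rw [Nat.add_sub_cancel, pow_succ, one_div_pow]
      field_simp
    rw [h2]
    have : (k : ℝ) - 1 ≠ 0 := by linarith
    field_simp
  have e3 : (r : ℝ) * (4 ^ k * η ^ 3) = η ^ 2 * A := by
    have : (r : ℝ) * 4 ^ k * η = A := by rw [hη]; field_simp
    calc (r : ℝ) * (4 ^ k * η ^ 3) = ((r : ℝ) * 4 ^ k * η) * η ^ 2 := by ring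
      _ = η ^ 2 * A := by rw [this]; ring
  have h7 : (r : ℝ) * (4 ^ k * η ^ 3) * (pairs k n).card ≤ η ^ 2 * A * (n : ℝ) ^ 2 := by
    rw [e3]
    exact mul_le_mul_of_nonneg_left hN2 (by positivity)
  have h8 : 2 * η ^ 2 * S ≤ 2 * η ^ 2 * (-(A * (n : ℝ) ^ 2) + 2 * (k : ℝ) ^ 2 * n) :=
    mul_le_mul_of_nonneg_left hS2 (by positivity)
  have h9 : (r : ℝ) * (pairs k n).card ≤ (r : ℝ) * ((n : ℝ) ^ 2 / (2 * ((k : ℝ) - 1))) :=
    mul_le_mul_of_nonneg_left hN hrpos.le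
  calc u * ((r : ℝ) * (pairs k n).card + 2 * η ^ 2 * S +
        (r : ℝ) * (4 ^ k * η ^ 3) * (pairs k n).card)
      ≤ u * ((r : ℝ) * ((n : ℝ) ^ 2 / (2 * ((k : ℝ) - 1))) +
        2 * η ^ 2 * (-(A * (n : ℝ) ^ 2) + 2 * (k : ℝ) ^ 2 * n) + η ^ 2 * A * (n : ℝ) ^ 2) := by
        apply mul_le_mul_of_nonneg_left _ hu0.le
        linarith
    _ = u * (r : ℝ) * ((n : ℝ) ^ 2 / (2 * ((k : ℝ) - 1))) - u * η ^ 2 * A * (n : ℝ) ^ 2 +
        u * (2 * η ^ 2 * (2 * (k : ℝ) ^ 2)) * n := by ring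
    _ = _ := by rw [hur]; ring

lemma main_cnt {k r : ℕ} (hk : 3 ≤ k) (hr : 2 ≤ r) :
    ∃ δ : ℝ, δ < 1 / (2 * ((k : ℝ) - 1) * (r : ℝ) ^ (k - 1)) ∧ ∃ C : ℝ, ∀ n : ℕ, 1 ≤ n →
      ∃ χ : ℕ → Fin r, |(cnt k n χ : ℝ) - δ * (n : ℝ) ^ 2| ≤ C * n := by
  have : NeZero r := ⟨by omega⟩
  obtain ⟨c, hc, C, hC, n₀, hmain⟩ := main_upper hk hr
  have hk0 : (3 : ℝ) ≤ k := by exact_mod_cast hk
  have hr0 : (2 : ℝ) ≤ r := by exact_mod_cast hr
  set ρ : ℝ := 1 / (2 * ((k : ℝ) - 1) * (r : ℝ) ^ (k - 1)) with hρ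
  have hρ0 : 0 < ρ := by
    have : (0 : ℝ) < (k : ℝ) - 1 := by linarith
    positivity
  set δ : ℝ := ρ - c / 2 with hδ
  refine ⟨δ, by linarith, ?_⟩
  -- for `n ≥ n₁` interpolate
  set κ : ℝ := 1 / (2 * ((k : ℝ) - 1)) with hκ
  have hκ0 : 0 < κ := by
    have : (0 : ℝ) < (k : ℝ) - 1 := by linarith
    positivity
  have hρκ : ρ ≤ κ / 2 := by
    have h1 : (2 : ℝ) ≤ (r : ℝ) ^ (k - 1) := by
      calc (2 : ℝ) ≤ (r : ℝ) ^ 1 := by simpa using hr0
        _ ≤ (r : ℝ) ^ (k - 1) := pow_le_pow_right₀ (by linarith) (by omega)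
    have h2 : (0 : ℝ) < (k : ℝ) - 1 := by linarith
    have e : κ / 2 = 1 / (2 * ((k : ℝ) - 1) * 2) := by rw [hκ]; field_simp
    rw [e, hρ]
    apply one_div_le_one_div_of_le (by positivity)
    nlinarith
  obtain ⟨n₁, hn₁⟩ := exists_nat_ge (max (2 * C / c) (2 / κ))
  refine ⟨(k : ℝ) + (1 + |δ|) * ((n₀ : ℝ) + n₁), ?_⟩
  intro n hn
  have hn' : (1 : ℝ) ≤ n := by exact_mod_cast hn
  have hδabs : 0 ≤ |δ| := abs_nonneg δ
  by_cases hbig : n₀ + n₁ ≤ n
  · have hbig' : (n₀ : ℝ) + n₁ ≤ n := by exact_mod_cast hbig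
    have hn₀0 : (0 : ℝ) ≤ n₀ := by positivity
    obtain ⟨χ₁, hχ₁⟩ := hmain n (by omega)
    have g1 : 2 * C / c ≤ n := by
      have := le_max_left (2 * C / c) (2 / κ); linarith
    have g2 : 2 / κ ≤ n := by
      have := le_max_right (2 * C / c) (2 / κ); linarith
    have g3 : 2 * C ≤ c * n := by rw [div_le_iff₀ hc] at g1; linarith
    have g4 : 2 ≤ κ * n := by rw [div_le_iff₀ hκ0] at g2; linarith
    have h1 : (cnt k n χ₁ : ℝ) ≤ δ * (n : ℝ) ^ 2 := by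
      refine hχ₁.trans ?_
      have e : (ρ - c) * (n : ℝ) ^ 2 + C * n = δ * (n : ℝ) ^ 2 - (c / 2 * n - C) * n := by
        rw [hδ]; ring
      rw [e]
      have : 0 ≤ (c / 2 * n - C) * n := mul_nonneg (by linarith) (by linarith)
      linarith
    have h2 : δ * (n : ℝ) ^ 2 ≤ ((pairs k n).card : ℝ) := by
      have h := le_card_pr (t := k - 1) (by omega) n
      rw [← pairs_eq, Nat.cast_sub (by omega : 1 ≤ k)] at h
      have e : (n : ℝ) ^ 2 / (2 * ((k : ℝ) - (1 : ℕ))) = κ * (n : ℝ) ^ 2 := by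
        rw [hκ]; push_cast; ring
      rw [e] at h
      have h3 : δ ≤ κ / 2 := by linarith
      have h4 : δ * (n : ℝ) ^ 2 ≤ κ / 2 * (n : ℝ) ^ 2 :=
        mul_le_mul_of_nonneg_right h3 (by positivity)
      have h5 : (n : ℝ) ≤ κ / 2 * (n : ℝ) ^ 2 := by nlinarith
      linarith
    obtain ⟨χ, hχ⟩ := interpolate (n := n) (by omega : 2 ≤ k) χ₁ _ h2 h1
    refine ⟨χ, hχ.trans ?_⟩
    have : 0 ≤ (1 + |δ|) * ((n₀ : ℝ) + n₁) * n := by positivity
    linarith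
  · push Not at hbig
    have hbig' : (n : ℝ) ≤ (n₀ : ℝ) + n₁ := by exact_mod_cast hbig.le
    refine ⟨fun _ => 0, ?_⟩
    have h1 : (cnt k n (fun _ => (0 : Fin r)) : ℝ) ≤ (n : ℝ) ^ 2 := by
      have h2 : cnt k n (fun _ => (0 : Fin r)) ≤ (pairs k n).card := card_filter_le _ _
      have h3 := card_pr_le (t := k - 1) (by omega) n
      rw [← pairs_eq] at h3
      have h4 : (n : ℝ) ^ 2 / (2 * ((k - 1 : ℕ) : ℝ)) ≤ (n : ℝ) ^ 2 := by
        apply div_le_self (by positivity)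
        have : (1 : ℝ) ≤ ((k - 1 : ℕ) : ℝ) := by exact_mod_cast (show 1 ≤ k - 1 by omega)
        linarith
      have h5 : (cnt k n (fun _ => (0 : Fin r)) : ℝ) ≤ ((pairs k n).card : ℝ) := by
        exact_mod_cast h2
      linarith
    have h2 : (0 : ℝ) ≤ (cnt k n (fun _ => (0 : Fin r)) : ℝ) := by positivity
    have h3 : |(cnt k n (fun _ => (0 : Fin r)) : ℝ) - δ * (n : ℝ) ^ 2| ≤
        (1 + |δ|) * (n : ℝ) ^ 2 := by
      calc |(cnt k n (fun _ => (0 : Fin r)) : ℝ) - δ * (n : ℝ) ^ 2|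
          ≤ |(cnt k n (fun _ => (0 : Fin r)) : ℝ)| + |δ * (n : ℝ) ^ 2| := abs_sub _ _
        _ = (cnt k n (fun _ => (0 : Fin r)) : ℝ) + |δ| * (n : ℝ) ^ 2 := by
            rw [abs_of_nonneg h2, abs_mul, abs_of_nonneg (by positivity : (0 : ℝ) ≤ (n : ℝ) ^ 2)]
        _ ≤ (1 + |δ|) * (n : ℝ) ^ 2 := by linarith
    have h4 : (1 + |δ|) * (n : ℝ) ^ 2 ≤ (1 + |δ|) * ((n₀ : ℝ) + n₁) * n := by
      have : (n : ℝ) ^ 2 ≤ ((n₀ : ℝ) + n₁) * n := by nlinarith
      nlinarith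
    have h5 : 0 ≤ (k : ℝ) * n := by positivity
    linarith

end Q120.KAP
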