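import Pool.Agent.Q120.KAPCount

/-!
# Beating the random rate
-/

namespace Q120.KAP

open Finset

/-! ### Expansion of the product -/

/-- First elementary sum. -/
def E1 (g : ℕ → ℝ) (k : ℕ) : ℝ := ∑ j ∈ range k, g j

/-- Second elementary sum. -/
def E2 (g : ℕ → ℝ) (k : ℕ) : ℝ := ∑ l ∈ range k, ∑ j ∈ range l, g j * g l

lemma abs_E2_le (g : ℕ → ℝ) (hg : ∀ j, |g j| ≤ 1) (k : ℕ) : |E2 g k| ≤ (k : ℝ) ^ 2 := by
  unfold E2
  calc |∑ l ∈ range k, ∑ j ∈ range l, g j * g l|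
      ≤ ∑ l ∈ range k, |∑ j ∈ range l, g j * g l| := abs_sum_le_sum_abs _ _
    _ ≤ ∑ l ∈ range k, (k : ℝ) := by
        apply sum_le_sum
        intro l hl
        calc |∑ j ∈ range l, g j * g l| ≤ ∑ j ∈ range l, |g j * g l| := abs_sum_le_sum_abs _ _
          _ ≤ ∑ j ∈ range l, (1 : ℝ) := by
              apply sum_le_sum
              intro j _
              rw [abs_mul]
              have h1 := hg j
              have h2 := hg l
              have h3 := abs_nonneg (g j)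
              have h4 := abs_nonneg (g l)
              nlinarith
          _ = (l : ℝ) := by simp
          _ ≤ k := by exact_mod_cast (mem_range.1 hl).le
    _ = (k : ℝ) ^ 2 := by simp [sq]

lemma sq_le_four_pow (k : ℕ) : (k : ℝ) ^ 2 ≤ 2 * 4 ^ k := by
  induction k with
  | zero => norm_num
  | succ k ih =>
    push_cast
    have h1 : (k : ℝ) < 2 ^ k := by exact_mod_cast Nat.lt_two_pow_self
    have h2 : (2 : ℝ) ^ k ≤ 4 ^ k := by
      apply pow_le_pow_left₀ <;> norm_num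
    have h3 : (1 : ℝ) ≤ 4 ^ k := one_le_pow₀ (by norm_num)
    rw [pow_succ (4 : ℝ)]
    nlinarith

lemma expand (g : ℕ → ℝ) (hg : ∀ j, |g j| ≤ 1) {η : ℝ} (h0 : 0 ≤ η) (h1 : η ≤ 1) (k : ℕ) :
    |∏ j ∈ range k, (1 + η * g j) - (1 + η * E1 g k + η ^ 2 * E2 g k)| ≤ 4 ^ k * η ^ 3 := by
  induction k with
  | zero =>
    simp [E1, E2]
    positivity
  | succ k ih =>
    have e1 : E1 g (k + 1) = E1 g k + g k := by unfold E1; rw [sum_range_succ]
    have e2 : E2 g (k + 1) = E2 g k + E1 g k * g k := by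
      unfold E2 E1; rw [sum_range_succ, sum_mul]
    rw [prod_range_succ, e1, e2]
    set P := ∏ j ∈ range k, (1 + η * g j)
    set R := P - (1 + η * E1 g k + η ^ 2 * E2 g k) with hR
    have e3 : P * (1 + η * g k) - (1 + η * (E1 g k + g k) + η ^ 2 * (E2 g k + E1 g k * g k)) =
        η ^ 3 * (g k * E2 g k) + R * (1 + η * g k) := by
      rw [hR]; ring
    rw [e3]
    have b1 : |g k * E2 g k| ≤ 2 * 4 ^ k := by
      rw [abs_mul]
      have h2 := abs_E2_le g hg k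
      have h3 := sq_le_four_pow k
      have h4 := hg k
      have h5 := abs_nonneg (g k)
      have h6 := abs_nonneg (E2 g k)
      nlinarith
    have b2 : |1 + η * g k| ≤ 2 := by
      have h4 := hg k
      rw [abs_le] at h4 ⊢
      constructor <;> nlinarith
    have b3 : 0 ≤ η ^ 3 := by positivity
    calc |η ^ 3 * (g k * E2 g k) + R * (1 + η * g k)|
        ≤ |η ^ 3 * (g k * E2 g k)| + |R * (1 + η * g k)| := abs_add_le _ _
      _ = η ^ 3 * |g k * E2 g k| + |R| * |1 + η * g k| := by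
          rw [abs_mul (η ^ 3), abs_mul R, abs_of_nonneg b3]
      _ ≤ η ^ 3 * (2 * 4 ^ k) + (4 ^ k * η ^ 3) * 2 := by
          have := abs_nonneg R
          have := abs_nonneg (1 + η * g k)
          apply add_le_add
          · exact mul_le_mul_of_nonneg_left b1 b3
          · exact mul_le_mul ih b2 (by positivity) (by positivity)
      _ = 4 ^ (k + 1) * η ^ 3 := by ring

/-! ### The perturbation -/

/-- Indicator function. -/
def ind (A : Finset ℕ) (x : ℕ) : ℝ := if x ∈ A then 1 else 0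

/-- The perturbation: `-α` near `0`, `1` just below `n / (k - 1)`, `-1` just above. -/
def pert (α : ℝ) (Y L : ℕ) (x : ℕ) : ℝ :=
  -α * ind (I0 L) x + ind (I1 Y L) x - ind (I2 Y L) x

lemma sum_ind (k n j l : ℕ) (A B : Finset ℕ) :
    ∑ p ∈ pairs k n, ind A (p.1 + j * p.2) * ind B (p.1 + l * p.2) = (NN k n j l A B : ℝ) := by
  unfold NN ind
  rw [card_filter]
  push_cast
  apply sum_congr rfl
  intro p _
  by_cases h1 : p.1 + j * p.2 ∈ A <;> by_cases h2 : p.1 + l * p.2 ∈ B <;> simp [h1, h2]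

lemma pert_le_one {k n Y L : ℕ} (h : Par k n Y L) {α : ℝ} (h0 : 0 ≤ α) (h1 : α ≤ 1) (x : ℕ) :
    |pert α Y L x| ≤ 1 := by
  obtain ⟨hk, hY, hY', hL⟩ := h
  have hkL : 4 * k * L = 4 * (k * L) := by ring
  have hkL2 : L ≤ k * L := Nat.le_mul_of_pos_left _ (by omega)
  unfold pert ind I0 I1 I2
  simp only [mem_Ioc]
  by_cases c0 : 0 < x ∧ x ≤ L
  · rw [if_pos c0, if_neg (by omega), if_neg (by omega)]
    rw [abs_le]; constructor <;> linarith
  · rw [if_neg c0]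
    by_cases c1 : Y - L < x ∧ x ≤ Y
    · rw [if_pos c1, if_neg (by omega)]
      norm_num
    · rw [if_neg c1]
      by_cases c2 : Y + L < x ∧ x ≤ Y + 2 * L
      · rw [if_pos c2]; norm_num
      · rw [if_neg c2]; norm_num

lemma S_expand (k n j l : ℕ) (α : ℝ) (Y L : ℕ) :
    ∑ p ∈ pairs k n, pert α Y L (p.1 + j * p.2) * pert α Y L (p.1 + l * p.2) =
      α ^ 2 * NN k n j l (I0 L) (I0 L) + NN k n j l (I1 Y L) (I1 Y L)
      + NN k n j l (I2 Y L) (I2 Y L) - NN k n j l (I1 Y L) (I2 Y L)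
      - NN k n j l (I2 Y L) (I1 Y L) - α * NN k n j l (I0 L) (I1 Y L)
      - α * NN k n j l (I1 Y L) (I0 L) + α * NN k n j l (I0 L) (I2 Y L)
      + α * NN k n j l (I2 Y L) (I0 L) := by
  simp_rw [← sum_ind, mul_sum]
  simp_rw [← sum_add_distrib, ← sum_sub_distrib]
  rw [← sum_add_distrib, ← sum_add_distrib]
  apply sum_congr rfl
  intro p _
  unfold pert
  ring

/-- Bound for one pair of positions. -/
lemma S_jl_le {k n Y L j l : ℕ} (h : Par k n Y L) (hjl : j < l) (hlk : l < k) {α : ℝ}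
    (h0 : 0 ≤ α) (h1 : α ≤ 1) :
    ∑ p ∈ pairs k n, pert α Y L (p.1 + j * p.2) * pert α Y L (p.1 + l * p.2) ≤
      α ^ 2 * (L : ℝ) ^ 2 + 2 * L - (if j = 0 ∧ l = 1 then α * (L : ℝ) ^ 2 else 0) := by
  have hk2 : 2 ≤ k := by have := h.hk; omega
  have hk3 := h.hk
  have hL := h.hL
  have hkL : 4 * k * L = 4 * (k * L) := by ring
  have hkL2 : L ≤ k * L := Nat.le_mul_of_pos_left _ (by omega)
  rw [S_expand]
  have z1 : NN k n j l (I2 Y L) (I1 Y L) = 0 := NN_rev hk2 hjl (by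
    intro x hx y hy
    unfold I2 at hx; unfold I1 at hy
    rw [mem_Ioc] at hx hy; omega)
  have z2 : NN k n j l (I1 Y L) (I0 L) = 0 := NN_rev hk2 hjl (by
    intro x hx y hy
    unfold I1 at hx; unfold I0 at hy
    rw [mem_Ioc] at hx hy; omega)
  have z3 : NN k n j l (I2 Y L) (I0 L) = 0 := NN_rev hk2 hjl (by
    intro x hx y hy
    unfold I2 at hx; unfold I0 at hy
    rw [mem_Ioc] at hx hy; omega)
  rw [z1, z2, z3]
  -- same blocks
  have t1 : (1 : ℝ) ≤ ((l - j : ℕ) : ℝ) := by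
    exact_mod_cast (show 1 ≤ l - j by omega)
  have tpos : (0 : ℝ) < ((l - j : ℕ) : ℝ) := by linarith
  have b00 : (NN k n j l (I0 L) (I0 L) : ℝ) ≤ (L : ℝ) ^ 2 / (2 * ((l - j : ℕ) : ℝ)) := by
    have := NN_same_le (n := n) hk2 hjl 0 L
    unfold I0
    simpa using this
  have b11 : (NN k n j l (I1 Y L) (I1 Y L) : ℝ) ≤ (L : ℝ) ^ 2 / (2 * ((l - j : ℕ) : ℝ)) := by
    have := NN_same_le (n := n) hk2 hjl (Y - L) L
    rw [show Y - L + L = Y by omega] at this
    exact this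
  have b22 : (NN k n j l (I2 Y L) (I2 Y L) : ℝ) ≤ (L : ℝ) ^ 2 / (2 * ((l - j : ℕ) : ℝ)) := by
    have := NN_same_le (n := n) hk2 hjl (Y + L) L
    rw [show Y + L + L = Y + 2 * L by omega] at this
    exact this
  have b12 : (L : ℝ) ^ 2 / ((l - j : ℕ) : ℝ) - L ≤ (NN k n j l (I1 Y L) (I2 Y L) : ℝ) := by
    have h2 := NN12_ge h hjl hlk
    have h3 : (L : ℝ) * ((L / (l - j) : ℕ) : ℝ) ≤ (NN k n j l (I1 Y L) (I2 Y L) : ℝ) := by
      exact_mod_cast h2
    have h4 : (L : ℝ) / ((l - j : ℕ) : ℝ) - 1 ≤ ((L / (l - j) : ℕ) : ℝ) := by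
      have h5 : L < (l - j) * (L / (l - j)) + (l - j) := Nat.lt_mul_div_succ _ (by omega)
      have h6 : (L : ℝ) < ((l - j : ℕ) : ℝ) * ((L / (l - j) : ℕ) : ℝ) + ((l - j : ℕ) : ℝ) := by
        exact_mod_cast h5
      rw [sub_le_iff_le_add, div_le_iff₀ tpos]
      nlinarith
    have h7 : (0 : ℝ) ≤ L := by positivity
    have h8 := mul_le_mul_of_nonneg_left h4 h7
    have h9 : (L : ℝ) * ((L : ℝ) / ((l - j : ℕ) : ℝ) - 1) = (L : ℝ) ^ 2 / ((l - j : ℕ) : ℝ) - L := by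
      ring
    linarith
  have hhalf : (L : ℝ) ^ 2 / (2 * ((l - j : ℕ) : ℝ)) = (L : ℝ) ^ 2 / ((l - j : ℕ) : ℝ) / 2 := by
    field_simp
  have hdiv : (L : ℝ) ^ 2 / ((l - j : ℕ) : ℝ) ≤ (L : ℝ) ^ 2 := div_le_self (by positivity) t1
  have hdiv0 : 0 ≤ (L : ℝ) ^ 2 / ((l - j : ℕ) : ℝ) := by positivity
  have hL0 : (0 : ℝ) ≤ L := by positivity
  have hα2 : 0 ≤ α ^ 2 := by positivity
  have c00 : α ^ 2 * (NN k n j l (I0 L) (I0 L) : ℝ) ≤ α ^ 2 * (L : ℝ) ^ 2 :=
    mul_le_mul_of_nonneg_left (by linarith) hα2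
  -- cross terms
  have cross : α * (NN k n j l (I0 L) (I2 Y L) : ℝ) - α * (NN k n j l (I0 L) (I1 Y L) : ℝ) ≤
      L - (if j = 0 ∧ l = 1 then α * (L : ℝ) ^ 2 else 0) := by
    by_cases hj : j = 0
    · subst hj
      by_cases hl1 : l = 1
      · subst hl1
        rw [if_pos ⟨rfl, rfl⟩, NN02_zero_one h]
        have h2 := NN01_ge h (le_refl 1)
        rw [Nat.div_one] at h2
        have h3 : (L : ℝ) * L ≤ (NN k n 0 1 (I0 L) (I1 Y L) : ℝ) := by exact_mod_cast h2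
        have h4 := mul_le_mul_of_nonneg_left h3 h0
        push_cast
        nlinarith
      · rw [if_neg (by omega)]
        have h2 := NN01_ge (l := l) h (by omega)
        have h3 := NN02_le (l := l) h (by omega)
        have h4 : (NN k n 0 l (I0 L) (I2 Y L) : ℝ) ≤ NN k n 0 l (I0 L) (I1 Y L) + L := by
          have : NN k n 0 l (I0 L) (I2 Y L) ≤ NN k n 0 l (I0 L) (I1 Y L) + L := by
            have e : L * (L / l + 1) = L * (L / l) + L := by ring
            omega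
          exact_mod_cast this
        have h5 := mul_le_mul_of_nonneg_left h4 h0
        nlinarith
    · rw [if_neg (by tauto), NN02_pos h (by omega) hlk]
      have h4 : 0 ≤ α * (NN k n j l (I0 L) (I1 Y L) : ℝ) := by positivity
      push_cast
      linarith
  push_cast
  linarith

lemma S_le {k n Y L : ℕ} (h : Par k n Y L) {α : ℝ} (h0 : 0 ≤ α) (h1 : α ≤ 1) :
    ∑ p ∈ pairs k n, E2 (fun j => pert α Y L (p.1 + j * p.2)) k ≤
      (k : ℝ) ^ 2 * (α ^ 2 * (L : ℝ) ^ 2 + 2 * L) - α * (L : ℝ) ^ 2 := by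
  have hk3 := h.hk
  unfold E2
  rw [sum_comm]
  simp_rw [sum_comm (s := pairs k n)]
  have step1 : ∑ l ∈ range k, ∑ j ∈ range l, ∑ p ∈ pairs k n,
      pert α Y L (p.1 + j * p.2) * pert α Y L (p.1 + l * p.2) ≤
      ∑ l ∈ range k, ∑ j ∈ range l, (α ^ 2 * (L : ℝ) ^ 2 + 2 * L -
        (if j = 0 ∧ l = 1 then α * (L : ℝ) ^ 2 else 0)) := by
    apply sum_le_sum
    intro l hl
    apply sum_le_sum
    intro j hj
    exact S_jl_le h (mem_range.1 hj) (mem_range.1 hl) h0 h1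
  refine step1.trans ?_
  simp_rw [sum_sub_distrib]
  have e1 : ∑ l ∈ range k, ∑ j ∈ range l, (if j = 0 ∧ l = 1 then α * (L : ℝ) ^ 2 else 0) =
      α * (L : ℝ) ^ 2 := by
    rw [sum_eq_single 1]
    · simp
    · intro l _ hl
      apply sum_eq_zero
      intro j _
      rw [if_neg (by tauto)]
    · intro h'
      exact absurd (mem_range.2 (by omega)) h'
  rw [e1]
  have e2 : ∑ l ∈ range k, ∑ _j ∈ range l, (α ^ 2 * (L : ℝ) ^ 2 + 2 * L) ≤
      (k : ℝ) ^ 2 * (α ^ 2 * (L : ℝ) ^ 2 + 2 * L) := by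
    have hb : 0 ≤ α ^ 2 * (L : ℝ) ^ 2 + 2 * L := by positivity
    calc ∑ l ∈ range k, ∑ _j ∈ range l, (α ^ 2 * (L : ℝ) ^ 2 + 2 * L)
        = ∑ l ∈ range k, (l : ℝ) * (α ^ 2 * (L : ℝ) ^ 2 + 2 * L) := by
          apply sum_congr rfl; intro l _; rw [sum_const, card_range, nsmul_eq_mul]
      _ ≤ ∑ _l ∈ range k, (k : ℝ) * (α ^ 2 * (L : ℝ) ^ 2 + 2 * L) := by
          apply sum_le_sum
          intro l hl
          apply mul_le_mul_of_nonneg_right _ hb
          exact_mod_cast (mem_range.1 hl).le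
      _ = (k : ℝ) ^ 2 * (α ^ 2 * (L : ℝ) ^ 2 + 2 * L) := by
          rw [sum_const, card_range, nsmul_eq_mul]; ring
  linarith

end Q120.KAP
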