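import Mathlib

/-!
# Means on discrete abelian groups, Bohr sets and KMF means: definitions

`G` is a (multiplicatively written) commutative group with the discrete topology and
`PontryaginDual G` is its dual group.
-/

namespace Q120.KMF

open MeasureTheory BoundedContinuousFunction

variable {G : Type*} [CommGroup G] [TopologicalSpace G] [DiscreteTopology G]

/-- A mean: a positive linear functional `m` on the space `ℓ^∞(G)` of bounded real functions on
the discrete group `G`, with `m(1) = 1`. -/
structure Mean (G : Type*) [TopologicalSpace G] where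
  /-- the underlying linear functional -/
  toLin : BoundedContinuousFunction G ℝ →ₗ[ℝ] ℝ
  /-- positivity -/
  nonneg : ∀ f : BoundedContinuousFunction G ℝ, (∀ x, 0 ≤ f x) → 0 ≤ toLin f
  /-- normalisation -/
  one : toLin 1 = 1

/-- The indicator function of `A ⊆ G` as an element of `ℓ^∞(G)`. -/
noncomputable def ind (A : Set G) : BoundedContinuousFunction G ℝ :=
  ofNormedAddCommGroupDiscrete (A.indicator fun _ => (1 : ℝ)) 1 (by
    intro x
    by_cases h : x ∈ A <;> simp [h])

/-- The translate `f(· g)` of `f ∈ ℓ^∞(G)`. -/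
noncomputable def translate (g : G) (f : BoundedContinuousFunction G ℝ) :
    BoundedContinuousFunction G ℝ :=
  ofNormedAddCommGroupDiscrete (fun x => f (x * g)) ‖f‖ (fun x => f.norm_coe_le_norm (x * g))

namespace Mean

/-- Invariant means. -/
def Invariant (m : Mean G) : Prop := ∀ (g : G) (f : BoundedContinuousFunction G ℝ),
  m.toLin (translate g f) = m.toLin f

/-- The mean is supported on `S`. -/
def SupportedOn (m : Mean G) (S : Set G) : Prop := m.toLin (ind S) = 1

end Mean

/-- Upper Banach density `d^*(A) = sup {m(1_A) : m an invariant mean}`. -/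
noncomputable def upperBanachDensity (A : Set G) : ℝ :=
  sSup {x | ∃ m : Mean G, m.Invariant ∧ x = m.toLin (ind A)}

/-- The set `{g : |χ(g) - 1| < ε for all χ ∈ F}`. -/
def bohr (F : Finset (PontryaginDual G)) (ε : ℝ) : Set G :=
  {g | ∀ χ ∈ F, ‖((χ g : Circle) : ℂ) - 1‖ < ε}

/-- Bohr sets. -/
def IsBohr (B : Set G) : Prop :=
  ∃ (F : Finset (PontryaginDual G)) (ε : ℝ), 0 < ε ∧ B = bohr F ε

/-- `S` is `(𝒜, ℬ)`-expanding: `d^*(S ∩ B) > 0` for every Bohr set `B`. -/
def Expanding (S : Set G) : Prop := ∀ B : Set G, IsBohr B → 0 < upperBanachDensity (S ∩ B)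

section Fourier

variable [MeasurableSpace (PontryaginDual G)]

/-- The Fourier transform `μ̂(g) = ∫ conj (χ(g)) dμ(χ)`. -/
noncomputable def hat (μ : Measure (PontryaginDual G)) (g : G) : ℂ :=
  ∫ χ : PontryaginDual G, (starRingEnd ℂ) ((χ g : Circle) : ℂ) ∂μ

lemma norm_hat_le (μ : Measure (PontryaginDual G)) [IsFiniteMeasure μ] (g : G) :
    ‖hat μ g‖ ≤ μ.real Set.univ := by
  unfold hat
  have := norm_integral_le_of_norm_le_const (μ := μ)
    (f := fun χ : PontryaginDual G => (starRingEnd ℂ) ((χ g : Circle) : ℂ)) (C := 1)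
    (Filter.Eventually.of_forall fun χ => by rw [RCLike.norm_conj, Circle.norm_coe])
  simpa using this

/-- The function `|μ̂|` as an element of `ℓ^∞(G)`. -/
noncomputable def absHat (μ : Measure (PontryaginDual G)) [IsFiniteMeasure μ] :
    BoundedContinuousFunction G ℝ :=
  ofNormedAddCommGroupDiscrete (fun g => ‖hat μ g‖) (μ.real Set.univ) (fun g => by
    rw [norm_norm]; exact norm_hat_le μ g)

namespace Mean

/-- `m` annihilates continuous measures: `m(|μ̂|) = 0` for every finite (regular) Borel measure `μ`
on the dual group without atoms. -/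
def AnnihilatesContinuous (m : Mean G) : Prop :=
  ∀ (μ : Measure (PontryaginDual G)) [IsFiniteMeasure μ] [μ.Regular],
    (∀ χ : PontryaginDual G, μ {χ} = 0) → m.toLin (absHat μ) = 0

/-- `m` massively accumulates at `0` in the Bohr compactification. -/
def MassivelyAccumulates (m : Mean G) : Prop := ∀ B : Set G, IsBohr B → 0 < m.toLin (ind B)

/-- KMF means. -/
def IsKMF (m : Mean G) : Prop := m.AnnihilatesContinuous ∧ m.MassivelyAccumulates

end Mean

end Fourier

end Q120.KMF
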