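import Pool.Agent.Q120.KMFWiener

/-!
# Every expanding set supports a KMF mean
-/

set_option linter.unusedSectionVars false

namespace Q120.KMF

open MeasureTheory BoundedContinuousFunction Topology Filter

variable {G : Type*} [CommGroup G] [TopologicalSpace G] [DiscreteTopology G]

lemma ind_apply (A : Set G) (x : G) : ind A x = A.indicator (fun _ => (1 : ℝ)) x := rfl

lemma ind_nonneg (A : Set G) (x : G) : 0 ≤ ind A x := by
  rw [ind_apply]
  by_cases h : x ∈ A <;> simp [h]

lemma ind_le_one (A : Set G) (x : G) : ind A x ≤ 1 := by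
  rw [ind_apply]
  by_cases h : x ∈ A <;> simp [h]

/-- The mean `f ↦ m(f 1_A) / m(1_A)`. -/
noncomputable def cond (m : Mean G) (A : Set G) (h : 0 < m.toLin (ind A)) : Mean G where
  toLin :=
    { toFun := fun f => m.toLin (f * ind A) / m.toLin (ind A)
      map_add' := by
        intro f g
        rw [add_mul, map_add, add_div]
      map_smul' := by
        intro c f
        rw [smul_mul_assoc, map_smul, RingHom.id_apply, smul_eq_mul, smul_eq_mul, mul_div_assoc] }
  nonneg := by
    intro f hf
    apply div_nonneg _ h.le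
    apply m.nonneg
    intro x
    exact mul_nonneg (hf x) (ind_nonneg A x)
  one := by
    change m.toLin (1 * ind A) / m.toLin (ind A) = 1
    rw [one_mul, div_self h.ne']

lemma cond_apply (m : Mean G) (A : Set G) (h : 0 < m.toLin (ind A))
    (f : BoundedContinuousFunction G ℝ) :
    (cond m A h).toLin f = m.toLin (f * ind A) / m.toLin (ind A) := rfl

lemma cond_ind {m : Mean G} {A : Set G} (h : 0 < m.toLin (ind A)) {C : Set G} (hAC : A ⊆ C) :
    (cond m A h).toLin (ind C) = 1 := by
  rw [cond_apply]
  have : ind C * ind A = ind A := by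
    ext x
    change ind C x * ind A x = ind A x
    rw [ind_apply, ind_apply]
    by_cases hx : x ∈ A
    · simp [hx, hAC hx]
    · simp [hx]
  rw [this, div_self h.ne']

section Fourier

variable [MeasurableSpace (PontryaginDual G)] [BorelSpace (PontryaginDual G)]

lemma cond_absHat {m : Mean G} (hm : m.Invariant) {A : Set G} (h : 0 < m.toLin (ind A))
    (μ : Measure (PontryaginDual G)) [IsFiniteMeasure μ] [μ.Regular]
    (hμ : ∀ χ : PontryaginDual G, μ {χ} = 0) : (cond m A h).toLin (absHat μ) = 0 := by
  rw [cond_apply]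
  have h1 : m.toLin (absHat μ * ind A) ≤ m.toLin (absHat μ) := by
    apply m.mono
    intro x
    change ‖hat μ x‖ * ind A x ≤ ‖hat μ x‖
    have h2 := ind_le_one A x
    have h3 := norm_nonneg (hat μ x)
    nlinarith
  have h2 : 0 ≤ m.toLin (absHat μ * ind A) := by
    apply m.nonneg
    intro x
    change 0 ≤ ‖hat μ x‖ * ind A x
    exact mul_nonneg (norm_nonneg _) (ind_nonneg A x)
  rw [mean_absHat μ hμ hm] at h1
  have : m.toLin (absHat μ * ind A) = 0 := le_antisymm h1 h2
  rw [this, zero_div]

end Fourier

/-! ### Limits of means -/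

lemma Mean.abs_le (m : Mean G) (f : BoundedContinuousFunction G ℝ) : |m.toLin f| ≤ ‖f‖ := by
  rw [_root_.abs_le]
  constructor
  · apply m.ge_of_ge
    intro x
    have := f.norm_coe_le_norm x
    rw [Real.norm_eq_abs, _root_.abs_le] at this
    exact this.1
  · apply m.le_of_le
    intro x
    have := f.norm_coe_le_norm x
    rw [Real.norm_eq_abs, _root_.abs_le] at this
    exact this.2

lemma exists_lim {ι : Type*} (U : Ultrafilter ι) (ν : ι → Mean G)
    (f : BoundedContinuousFunction G ℝ) :
    ∃ x : ℝ, Tendsto (fun i => (ν i).toLin f) U (𝓝 x) := by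
  have hK : IsCompact (Set.Icc (-‖f‖) ‖f‖) := isCompact_Icc
  have hmem : ∀ i, (ν i).toLin f ∈ Set.Icc (-‖f‖) ‖f‖ := fun i =>
    _root_.abs_le.1 ((ν i).abs_le f)
  have h1 : (U.map (fun i => (ν i).toLin f) : Filter ℝ) ≤ 𝓟 (Set.Icc (-‖f‖) ‖f‖) := by
    rw [le_principal_iff]
    change (fun i => (ν i).toLin f) ⁻¹' (Set.Icc (-‖f‖) ‖f‖) ∈ (U : Filter ι)
    exact Filter.univ_mem' hmem
  obtain ⟨x, _, hx⟩ := hK.ultrafilter_le_nhds _ h1
  exact ⟨x, hx⟩

/-- The limit of a family of means along an ultrafilter. -/
noncomputable def limMean {ι : Type*} (U : Ultrafilter ι) (ν : ι → Mean G) : Mean G where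
  toLin :=
    { toFun := fun f => (exists_lim U ν f).choose
      map_add' := by
        intro f g
        have h1 := (exists_lim U ν f).choose_spec
        have h2 := (exists_lim U ν g).choose_spec
        have h3 := (exists_lim U ν (f + g)).choose_spec
        have h4 := h1.add h2
        refine tendsto_nhds_unique h3 ?_
        refine h4.congr ?_
        intro i
        rw [map_add]
      map_smul' := by
        intro c f
        have h1 := (exists_lim U ν f).choose_spec
        have h3 := (exists_lim U ν (c • f)).choose_spec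
        have h4 := h1.const_mul c
        refine tendsto_nhds_unique h3 ?_
        refine h4.congr ?_
        intro i
        rw [map_smul, smul_eq_mul] }
  nonneg := by
    intro f hf
    have h1 := (exists_lim U ν f).choose_spec
    exact ge_of_tendsto h1 (Filter.Eventually.of_forall fun i => (ν i).nonneg f hf)
  one := by
    have h1 := (exists_lim U ν 1).choose_spec
    refine tendsto_nhds_unique h1 ?_
    have : (fun i => (ν i).toLin (1 : BoundedContinuousFunction G ℝ)) = fun _ => (1 : ℝ) := by
      funext i; exact (ν i).one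
    rw [this]
    exact tendsto_const_nhds

lemma limMean_eq {ι : Type*} (U : Ultrafilter ι) (ν : ι → Mean G)
    (f : BoundedContinuousFunction G ℝ) {c : ℝ} (h : ∀ᶠ i in U, (ν i).toLin f = c) :
    (limMean U ν).toLin f = c := by
  have h1 := (exists_lim U ν f).choose_spec
  refine tendsto_nhds_unique h1 ?_
  refine Tendsto.congr' (f₁ := fun _ => c) ?_ tendsto_const_nhds
  filter_upwards [h] with i hi
  exact hi.symm

/-! ### The main theorem -/

lemma exists_invariant {A : Set G} (h : 0 < upperBanachDensity A) :
    ∃ m : Mean G, m.Invariant ∧ 0 < m.toLin (ind A) := by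
  by_contra hcon
  push Not at hcon
  have : upperBanachDensity A ≤ 0 := by
    apply Real.sSup_nonpos
    rintro x ⟨m, hm, rfl⟩
    exact hcon m hm
  linarith

theorem expanding_supports [MeasurableSpace (PontryaginDual G)] [BorelSpace (PontryaginDual G)]
    (S : Set G) (hS : Expanding S) : ∃ m : Mean G, m.SupportedOn S ∧ m.IsKMF ∧
      ∀ B : Set G, IsBohr B → m.SupportedOn B := by
  classical
  -- index set: finite sets of characters and precisions
  let ι := Finset (PontryaginDual G) × ℕ
  let B : ι → Set G := fun i => bohr i.1 (1 / ((i.2 : ℝ) + 1))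
  have hB : ∀ i, IsBohr (B i) := fun i => ⟨i.1, _, by positivity, rfl⟩
  choose m hm hpos using fun i => exists_invariant (hS (B i) (hB i))
  let ν : ι → Mean G := fun i => cond (m i) (S ∩ B i) (hpos i)
  let U : Ultrafilter ι := Ultrafilter.of atTop
  have hU : (U : Filter ι) ≤ atTop := Ultrafilter.of_le atTop
  have hBohr : ∀ C : Set G, IsBohr C → (limMean U ν).toLin (ind C) = 1 := by
    rintro C ⟨F, ε, hε, rfl⟩
    apply limMean_eq
    obtain ⟨n, hn⟩ := exists_nat_one_div_lt hε
    have : ∀ᶠ i : ι in atTop, (ν i).toLin (ind (bohr F ε)) = 1 := by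
      filter_upwards [eventually_ge_atTop ((F, n) : ι)] with i hi
      apply cond_ind
      intro x hx χ hχ
      have h1 := hx.2 χ (hi.1 hχ)
      refine h1.trans (lt_of_le_of_lt ?_ hn)
      apply one_div_le_one_div_of_le (by positivity)
      have : n ≤ i.2 := hi.2
      have : (n : ℝ) ≤ i.2 := by exact_mod_cast this
      linarith
    exact hU this
  refine ⟨limMean U ν, ?_, ⟨?_, ?_⟩, hBohr⟩
  · apply limMean_eq
    exact Filter.Eventually.of_forall fun i => cond_ind (hpos i) Set.inter_subset_left
  · intro μ _ _ hμ
    apply limMean_eq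
    exact Filter.Eventually.of_forall fun i => cond_absHat (hm i) (hpos i) μ hμ
  · intro C hC
    rw [hBohr C hC]
    exact one_pos

end Q120.KMF
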