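import Pool.Agent.Q120.KMFDefs

/-!
# Invariant means annihilate Fourier transforms of continuous measures
-/

set_option linter.unusedSectionVars false

namespace Q120.KMF

open MeasureTheory BoundedContinuousFunction Topology Filter
open scoped Pointwise

variable {G : Type*} [CommGroup G] [TopologicalSpace G] [DiscreteTopology G]

/-! ### Elementary facts on means -/

namespace Mean

variable (m : Mean G)

lemma mono {f g : BoundedContinuousFunction G ℝ} (h : ∀ x, f x ≤ g x) : m.toLin f ≤ m.toLin g := by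
  have := m.nonneg (g - f) (fun x => by simpa using h x)
  rw [map_sub] at this
  linarith

lemma const_smul (c : ℝ) : m.toLin (c • (1 : BoundedContinuousFunction G ℝ)) = c := by
  rw [map_smul, m.one, smul_eq_mul, mul_one]

lemma le_of_le {f : BoundedContinuousFunction G ℝ} {C : ℝ} (h : ∀ x, f x ≤ C) :
    m.toLin f ≤ C := by
  rw [← m.const_smul C]
  apply m.mono
  intro x
  simpa using h x

lemma ge_of_ge {f : BoundedContinuousFunction G ℝ} {C : ℝ} (h : ∀ x, C ≤ f x) :
    C ≤ m.toLin f := by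
  rw [← m.const_smul C]
  apply m.mono
  intro x
  simpa using h x

end Mean

/-! ### Averaging operators -/

/-- Averaging of a bounded function along a list. -/
noncomputable def avg : List G → BoundedContinuousFunction G ℝ → BoundedContinuousFunction G ℝ
  | [], f => f
  | k :: L, f => (1 / 2 : ℝ) • (avg L f + translate k (avg L f))

lemma mean_avg {m : Mean G} (hm : m.Invariant) (L : List G) (f : BoundedContinuousFunction G ℝ) :
    m.toLin (avg L f) = m.toLin f := by
  induction L with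
  | nil => rfl
  | cons k L ih =>
    change m.toLin ((1 / 2 : ℝ) • (avg L f + translate k (avg L f))) = _
    rw [map_smul, map_add, hm, ih, smul_eq_mul]
    ring

/-- Averaging of a complex valued function along a list. -/
noncomputable def cavg : List G → (G → ℂ) → G → ℂ
  | [], F => F
  | k :: L, F => fun x => (cavg L F x + cavg L F (x * k)) / 2

lemma avg_eq_cavg (L : List G) (f : BoundedContinuousFunction G ℝ) (x : G) :
    ((avg L f x : ℝ) : ℂ) = cavg L (fun g => ((f g : ℝ) : ℂ)) x := by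
  induction L generalizing x with
  | nil => rfl
  | cons k L ih =>
    change (((1 / 2 : ℝ) * (avg L f x + avg L f (x * k)) : ℝ) : ℂ) =
      (cavg L (fun g => ((f g : ℝ) : ℂ)) x + cavg L (fun g => ((f g : ℝ) : ℂ)) (x * k)) / 2
    rw [← ih x, ← ih (x * k)]
    push_cast
    ring

/-- The transfer function of the averaging operator. -/
noncomputable def D : List G → PontryaginDual G → ℂ
  | [], _ => 1
  | k :: L, ξ => (1 + ((ξ k : Circle) : ℂ)) / 2 * D L ξ

lemma norm_half_le (z : Circle) : ‖(1 + (z : ℂ)) / 2‖ ≤ 1 := by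
  rw [norm_div]
  have h : ‖1 + (z : ℂ)‖ ≤ 1 + 1 := by
    refine (norm_add_le _ _).trans ?_
    rw [norm_one, Circle.norm_coe]
  have h2 : ‖(2 : ℂ)‖ = 2 := by norm_num
  rw [h2, div_le_one (by norm_num)]
  linarith

lemma norm_D_le (L : List G) (ξ : PontryaginDual G) : ‖D L ξ‖ ≤ 1 := by
  induction L with
  | nil => simp [D]
  | cons k L ih =>
    rw [D, norm_mul]
    have := norm_half_le (ξ k)
    have h0 := norm_nonneg (D L ξ)
    have h1 := norm_nonneg ((1 + ((ξ k : Circle) : ℂ)) / 2)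
    nlinarith

lemma D_append (L L' : List G) (ξ : PontryaginDual G) : D (L ++ L') ξ = D L ξ * D L' ξ := by
  induction L with
  | nil => simp [D]
  | cons k L ih =>
    rw [List.cons_append, D, ih, D, mul_assoc]

lemma cavg_char (L : List G) (ξ : PontryaginDual G) (x : G) :
    cavg L (fun h => ((ξ h : Circle) : ℂ)) x = ((ξ x : Circle) : ℂ) * D L ξ := by
  induction L generalizing x with
  | nil => simp [cavg, D]
  | cons k L ih =>
    change (cavg L (fun h => ((ξ h : Circle) : ℂ)) x +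
      cavg L (fun h => ((ξ h : Circle) : ℂ)) (x * k)) / 2 = _
    rw [ih, ih, D, map_mul, Circle.coe_mul]
    ring

lemma continuous_eval (g : G) : Continuous fun χ : PontryaginDual G => χ g := by
  have h1 : Continuous fun χ : PontryaginDual G =>
      (ContinuousMonoidHom.toContinuousMap (χ : G →ₜ* Circle) : C(G, Circle)) :=
    (ContinuousMonoidHom.isInducing_toContinuousMap G Circle).continuous
  exact (continuous_eval_const (F := C(G, Circle)) g).comp h1

lemma continuous_coe_eval (g : G) : Continuous fun χ : PontryaginDual G => ((χ g : Circle) : ℂ) :=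
  continuous_subtype_val.comp (continuous_eval g)

lemma continuous_D (L : List G) : Continuous fun ξ : PontryaginDual G => D L ξ := by
  induction L with
  | nil => exact continuous_const
  | cons k L ih =>
    change Continuous fun ξ : PontryaginDual G => (1 + ((ξ k : Circle) : ℂ)) / 2 * D L ξ
    exact ((continuous_const.add (continuous_coe_eval k)).div_const 2).mul ih

/-- For `ξ ≠ 1` the transfer function can be made small at `ξ`. -/
lemma exists_small_at {ξ : PontryaginDual G} (hξ : ξ ≠ 1) {ε : ℝ} (hε : 0 < ε) :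
    ∃ L : List G, ‖D L ξ‖ < ε := by
  obtain ⟨k, hk⟩ : ∃ k, ξ k ≠ 1 := by
    by_contra h
    push Not at h
    exact hξ (PontryaginDual.ext fun a => by rw [h a]; rfl)
  have hlt : ‖(1 + ((ξ k : Circle) : ℂ)) / 2‖ < 1 := by
    have h1 := norm_half_le (ξ k)
    refine lt_of_le_of_ne h1 ?_
    intro heq
    apply hk
    rw [norm_div] at heq
    have h2 : ‖(2 : ℂ)‖ = 2 := by norm_num
    rw [h2, div_eq_one_iff_eq (by norm_num)] at heq
    have h3 : ‖(1 : ℂ) + ((ξ k : Circle) : ℂ)‖ = ‖(1 : ℂ)‖ + ‖((ξ k : Circle) : ℂ)‖ := by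
      rw [heq, norm_one, Circle.norm_coe]; norm_num
    have h4 : SameRay ℝ (1 : ℂ) ((ξ k : Circle) : ℂ) := sameRay_iff_norm_add.2 h3
    have h5 : (1 : ℂ) = ((ξ k : Circle) : ℂ) := by
      apply (sameRay_iff_of_norm_eq _).1 h4
      rw [norm_one, Circle.norm_coe]
    exact Circle.ext (by rw [← h5]; simp)
  obtain ⟨N, hN⟩ := exists_pow_lt_of_lt_one hε hlt
  refine ⟨List.replicate N k, ?_⟩
  have : ∀ N : ℕ, ‖D (List.replicate N k) ξ‖ = ‖(1 + ((ξ k : Circle) : ℂ)) / 2‖ ^ N := by
    intro N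
    induction N with
    | zero => simp [D]
    | succ N ih => rw [List.replicate_succ, D, norm_mul, ih, pow_succ]; ring
  rw [this]
  exact hN

/-- Uniform smallness outside a neighbourhood of `1`. -/
lemma exists_small_off {W : Set (PontryaginDual G)} (hW : IsOpen W) (h1 : 1 ∈ W) {ε : ℝ}
    (hε : 0 < ε) : ∃ L : List G, ∀ ξ ∉ W, ‖D L ξ‖ < ε := by
  have hK : IsCompact Wᶜ := hW.isClosed_compl.isCompact
  have key : ∃ L : List G, ∀ ξ ∈ Wᶜ, ‖D L ξ‖ < ε := by
    refine hK.induction_on (p := fun s => ∃ L : List G, ∀ ξ ∈ s, ‖D L ξ‖ < ε) ?_ ?_ ?_ ?_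
    · exact ⟨[], fun ξ h => h.elim⟩
    · rintro s t hst ⟨L, hL⟩
      exact ⟨L, fun ξ h => hL ξ (hst h)⟩
    · rintro s t ⟨L, hL⟩ ⟨L', hL'⟩
      refine ⟨L ++ L', ?_⟩
      rintro ξ (h | h)
      · rw [D_append, norm_mul]
        have a1 := hL ξ h
        have a2 := norm_D_le L' ξ
        have a3 := norm_nonneg (D L ξ)
        nlinarith
      · rw [D_append, norm_mul]
        have a1 := hL' ξ h
        have a2 := norm_D_le L ξ
        have a3 := norm_nonneg (D L' ξ)
        nlinarith
    · intro ξ hξ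
      have hne : ξ ≠ 1 := by rintro rfl; exact hξ h1
      obtain ⟨L, hL⟩ := exists_small_at hne hε
      refine ⟨{η | ‖D L η‖ < ε}, ?_, L, fun η h => h⟩
      apply mem_nhdsWithin_of_mem_nhds
      exact (isOpen_lt (continuous_D L).norm continuous_const).mem_nhds hL
  exact key

section Fourier

variable [MeasurableSpace (PontryaginDual G)] [BorelSpace (PontryaginDual G)]

/-- Uniform smallness of the measure of small translates. -/
lemma exists_nhds_small (μ : Measure (PontryaginDual G)) [μ.Regular]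
    (hμ : ∀ χ : PontryaginDual G, μ {χ} = 0) {ε : ENNReal} (hε : 0 < ε) :
    ∃ W : Set (PontryaginDual G), IsOpen W ∧ 1 ∈ W ∧
      ∀ χ : PontryaginDual G, μ {ψ | χ⁻¹ * ψ ∈ W} < ε := by
  have hK : IsCompact (Set.univ : Set (PontryaginDual G)) := isCompact_univ
  have key : ∃ W : Set (PontryaginDual G), IsOpen W ∧ 1 ∈ W ∧
      ∀ χ ∈ (Set.univ : Set (PontryaginDual G)), μ {ψ | χ⁻¹ * ψ ∈ W} < ε := by
    refine hK.induction_on (p := fun s => ∃ W : Set (PontryaginDual G), IsOpen W ∧ 1 ∈ W ∧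
      ∀ χ ∈ s, μ {ψ | χ⁻¹ * ψ ∈ W} < ε) ?_ ?_ ?_ ?_
    · exact ⟨Set.univ, isOpen_univ, trivial, fun χ h => h.elim⟩
    · rintro s t hst ⟨W, h1, h2, h3⟩
      exact ⟨W, h1, h2, fun χ h => h3 χ (hst h)⟩
    · rintro s t ⟨W, h1, h2, h3⟩ ⟨W', h1', h2', h3'⟩
      refine ⟨W ∩ W', h1.inter h1', ⟨h2, h2'⟩, ?_⟩
      rintro χ (h | h)
      · exact lt_of_le_of_lt (measure_mono fun ψ hψ => hψ.1) (h3 χ h)
      · exact lt_of_le_of_lt (measure_mono fun ψ hψ => hψ.2) (h3' χ h)
    · intro χ _
      obtain ⟨U, hU, hUo, hUε⟩ := Set.exists_isOpen_lt_of_lt ({χ} : Set (PontryaginDual G)) ε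
        (μ := μ) (by rw [hμ χ]; exact hε)
      have hnb : (fun ψ => χ * ψ) ⁻¹' U ∈ 𝓝 (1 : PontryaginDual G) := by
        apply (continuous_const_mul χ).continuousAt.preimage_mem_nhds
        rw [mul_one]
        exact hUo.mem_nhds (hU rfl)
      obtain ⟨V, hVo, hV1, hVV⟩ := exists_open_nhds_one_mul_subset hnb
      refine ⟨{φ | χ⁻¹ * φ ∈ V}, ?_, V, hVo, hV1, ?_⟩
      · apply mem_nhdsWithin_of_mem_nhds
        apply (hVo.preimage (continuous_const_mul χ⁻¹)).mem_nhds
        change χ⁻¹ * χ ∈ V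
        rw [inv_mul_cancel]; exact hV1
      · intro φ hφ
        refine lt_of_le_of_lt (measure_mono ?_) hUε
        intro ψ hψ
        have h3 : χ⁻¹ * ψ ∈ V * V := by
          refine ⟨χ⁻¹ * φ, hφ, φ⁻¹ * ψ, hψ, ?_⟩
          simp only
          group
        have h4 := hVV h3
        change χ * (χ⁻¹ * ψ) ∈ U at h4
        rwa [mul_inv_cancel_left] at h4
  obtain ⟨W, h1, h2, h3⟩ := key
  exact ⟨W, h1, h2, fun χ => h3 χ trivial⟩

variable (μ : Measure (PontryaginDual G)) [IsFiniteMeasure μ]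

lemma integrable_of_continuous {f : PontryaginDual G → ℂ} (hf : Continuous f) :
    Integrable f μ := by
  obtain ⟨C, hC⟩ := (isCompact_univ (X := PontryaginDual G)).exists_bound_of_continuousOn
    hf.continuousOn
  exact Integrable.of_bound hf.aestronglyMeasurable C
    (Filter.Eventually.of_forall fun x => hC x trivial)

lemma continuous_cavg {F : G → PontryaginDual G → ℂ} (hF : ∀ h, Continuous (F h)) (L : List G)
    (x : G) : Continuous fun χ => cavg L (fun h => F h χ) x := by
  induction L generalizing x with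
  | nil => exact hF x
  | cons k L ih => exact ((ih x).add (ih (x * k))).div_const 2

lemma cavg_integral {F : G → PontryaginDual G → ℂ} (hF : ∀ h, Continuous (F h)) (L : List G)
    (x : G) : cavg L (fun h => ∫ χ, F h χ ∂μ) x = ∫ χ, cavg L (fun h => F h χ) x ∂μ := by
  induction L generalizing x with
  | nil => rfl
  | cons k L ih =>
    change (cavg L (fun h => ∫ χ, F h χ ∂μ) x + cavg L (fun h => ∫ χ, F h χ ∂μ) (x * k)) / 2 = _
    rw [ih, ih, ← integral_add, ← integral_div]
    · rfl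
    · exact integrable_of_continuous μ (continuous_cavg hF L x)
    · exact integrable_of_continuous μ (continuous_cavg hF L (x * k))

lemma conj_hat (g : G) :
    (starRingEnd ℂ) (hat μ g) = ∫ ψ : PontryaginDual G, ((ψ g : Circle) : ℂ) ∂μ := by
  unfold hat
  rw [← integral_conj]
  simp

/-- The square of `|μ̂|` as a bounded function. -/
noncomputable def sqHat : BoundedContinuousFunction G ℝ :=
  ofNormedAddCommGroupDiscrete (fun g => ‖hat μ g‖ ^ 2) ((μ.real Set.univ) ^ 2) (fun g => by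
    rw [norm_pow, norm_norm]
    exact pow_le_pow_left₀ (norm_nonneg _) (norm_hat_le μ g) 2)

lemma inner_bound (L : List G) {W : Set (PontryaginDual G)} (hWo : IsOpen W) {ε δ : ℝ}
    (hε : 0 ≤ ε) (hL : ∀ ξ ∉ W, ‖D L ξ‖ ≤ ε) (χ : PontryaginDual G)
    (hχ : μ.real {ψ | χ⁻¹ * ψ ∈ W} ≤ δ) (x : G) :
    ‖cavg L (fun h => (starRingEnd ℂ) ((χ h : Circle) : ℂ) * (starRingEnd ℂ) (hat μ h)) x‖ ≤
      δ + ε * μ.real Set.univ := by
  have e1 : (fun h => (starRingEnd ℂ) ((χ h : Circle) : ℂ) * (starRingEnd ℂ) (hat μ h)) =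
      fun h => ∫ ψ : PontryaginDual G, ((((χ⁻¹ * ψ) h : Circle)) : ℂ) ∂μ := by
    funext h
    rw [conj_hat, ← integral_const_mul]
    congr 1
    funext ψ
    have : (χ⁻¹ * ψ) h = (χ h)⁻¹ * ψ h := rfl
    rw [this, Circle.coe_mul, Circle.coe_inv_eq_conj]
  rw [e1, cavg_integral μ (F := fun h ψ => ((((χ⁻¹ * ψ) h : Circle)) : ℂ))
    (fun h => (continuous_coe_eval h).comp (continuous_const_mul χ⁻¹))]
  have hmeas : MeasurableSet {ψ : PontryaginDual G | χ⁻¹ * ψ ∈ W} :=
    (hWo.preimage (continuous_const_mul χ⁻¹)).measurableSet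
  calc ‖∫ ψ, cavg L (fun h => ((((χ⁻¹ * ψ) h : Circle)) : ℂ)) x ∂μ‖
      ≤ ∫ ψ, ‖cavg L (fun h => ((((χ⁻¹ * ψ) h : Circle)) : ℂ)) x‖ ∂μ :=
        norm_integral_le_integral_norm _
    _ ≤ ∫ ψ, (({ψ : PontryaginDual G | χ⁻¹ * ψ ∈ W}.indicator (fun _ => (1 : ℝ)) ψ) + ε) ∂μ := by
        apply integral_mono_of_nonneg
        · exact Filter.Eventually.of_forall fun ψ => norm_nonneg _
        · exact ((integrable_const (1 : ℝ)).indicator hmeas).add (integrable_const ε)
        · apply Filter.Eventually.of_forall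
          intro ψ
          change ‖cavg L (fun h => ((((χ⁻¹ * ψ) h : Circle)) : ℂ)) x‖ ≤
            ({ψ : PontryaginDual G | χ⁻¹ * ψ ∈ W}.indicator (fun _ => (1 : ℝ)) ψ) + ε
          rw [cavg_char, norm_mul, Circle.norm_coe, one_mul]
          by_cases hψ : χ⁻¹ * ψ ∈ W
          · have : ({ψ : PontryaginDual G | χ⁻¹ * ψ ∈ W}.indicator (fun _ => (1 : ℝ)) ψ) = 1 :=
              Set.indicator_of_mem (show ψ ∈ {ψ : PontryaginDual G | χ⁻¹ * ψ ∈ W} from hψ) _
            rw [this]
            have := norm_D_le L (χ⁻¹ * ψ)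
            linarith
          · have : ({ψ : PontryaginDual G | χ⁻¹ * ψ ∈ W}.indicator (fun _ => (1 : ℝ)) ψ) = 0 :=
              Set.indicator_of_notMem (show ψ ∉ {ψ : PontryaginDual G | χ⁻¹ * ψ ∈ W} from hψ) _
            rw [this]
            have := hL _ hψ
            linarith
    _ = μ.real {ψ | χ⁻¹ * ψ ∈ W} + ε * μ.real Set.univ := by
        rw [integral_add ((integrable_const (1 : ℝ)).indicator hmeas) (integrable_const ε),
          integral_indicator_const _ hmeas, integral_const]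
        simp only [smul_eq_mul, mul_one]
        ring
    _ ≤ δ + ε * μ.real Set.univ := by linarith

lemma avg_sqHat_le (L : List G) {W : Set (PontryaginDual G)} (hWo : IsOpen W) {ε δ : ℝ}
    (hε : 0 ≤ ε) (hL : ∀ ξ ∉ W, ‖D L ξ‖ ≤ ε)
    (hχ : ∀ χ : PontryaginDual G, μ.real {ψ | χ⁻¹ * ψ ∈ W} ≤ δ) (x : G) :
    avg L (sqHat μ) x ≤ (δ + ε * μ.real Set.univ) * μ.real Set.univ := by
  have e1 : ((avg L (sqHat μ) x : ℝ) : ℂ) =
      ∫ χ : PontryaginDual G, cavg L (fun h => (starRingEnd ℂ) ((χ h : Circle) : ℂ) *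
        (starRingEnd ℂ) (hat μ h)) x ∂μ := by
    rw [avg_eq_cavg]
    rw [← cavg_integral μ (F := fun h χ => (starRingEnd ℂ) ((χ h : Circle) : ℂ) *
        (starRingEnd ℂ) (hat μ h))]
    · congr 1
      funext h
      rw [integral_mul_const]
      change (((‖hat μ h‖ ^ 2 : ℝ)) : ℂ) = hat μ h * (starRingEnd ℂ) (hat μ h)
      rw [Complex.mul_conj, Complex.normSq_eq_norm_sq]
    · intro h
      exact (Complex.continuous_conj.comp (continuous_coe_eval h)).mul continuous_const
  have h2 : ‖((avg L (sqHat μ) x : ℝ) : ℂ)‖ ≤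
      (δ + ε * μ.real Set.univ) * μ.real Set.univ := by
    rw [e1]
    apply norm_integral_le_of_norm_le_const
    exact Filter.Eventually.of_forall fun χ => inner_bound μ L hWo hε hL χ (hχ χ) x
  rw [Complex.norm_real] at h2
  exact (le_abs_self _).trans h2

/-- Wiener's lemma for invariant means. -/
lemma mean_sqHat [μ.Regular] (hμ : ∀ χ : PontryaginDual G, μ {χ} = 0) {m : Mean G}
    (hm : m.Invariant) : m.toLin (sqHat μ) = 0 := by
  have h0 : 0 ≤ m.toLin (sqHat μ) := m.nonneg _ fun x => by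
    change 0 ≤ ‖hat μ x‖ ^ 2
    positivity
  refine le_antisymm ?_ h0
  set M := μ.real Set.univ with hM
  have hM0 : 0 ≤ M := by rw [hM]; positivity
  apply le_of_forall_pos_le_add
  intro ε hε
  -- choose the parameters
  set ε' := ε / ((1 + M) * (1 + M)) with hε'
  have hε'0 : 0 < ε' := by positivity
  obtain ⟨W, hWo, hW1, hWμ⟩ := exists_nhds_small μ hμ (ε := ENNReal.ofReal ε')
    (by rw [ENNReal.ofReal_pos]; exact hε'0)
  obtain ⟨L, hL⟩ := exists_small_off hWo hW1 hε'0
  have hbound := avg_sqHat_le μ L hWo hε'0.le (fun ξ h => (hL ξ h).le) (δ := ε')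
    (fun χ => by
      have := (hWμ χ).le
      exact ENNReal.toReal_le_of_le_ofReal hε'0.le this)
  rw [← mean_avg hm L, zero_add]
  refine (m.le_of_le hbound).trans ?_
  rw [← hM]
  have e : (ε' + ε' * M) * M = ε' * ((1 + M) * M) := by ring
  rw [e]
  calc ε' * ((1 + M) * M) ≤ ε' * ((1 + M) * (1 + M)) := by
        apply mul_le_mul_of_nonneg_left _ hε'0.le
        nlinarith
    _ = ε := by rw [hε']; field_simp

lemma mean_absHat [μ.Regular] (hμ : ∀ χ : PontryaginDual G, μ {χ} = 0) {m : Mean G}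
    (hm : m.Invariant) : m.toLin (absHat μ) = 0 := by
  have h0 : 0 ≤ m.toLin (absHat μ) := m.nonneg _ fun x => by
    change 0 ≤ ‖hat μ x‖
    positivity
  refine le_antisymm ?_ h0
  apply le_of_forall_pos_le_add
  intro ε hε
  have hle : ∀ x, absHat μ x ≤ (ε • (1 : BoundedContinuousFunction G ℝ) +
      (1 / ε) • sqHat μ) x := by
    intro x
    change ‖hat μ x‖ ≤ ε * 1 + (1 / ε) * ‖hat μ x‖ ^ 2
    set t := ‖hat μ x‖
    have : 0 ≤ t := norm_nonneg _
    rw [mul_one, one_div, ← sub_nonneg]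
    have e : ε + ε⁻¹ * t ^ 2 - t = ε⁻¹ * ((t - ε) ^ 2 + ε * t) := by field_simp; ring
    rw [e]
    positivity
  have := m.mono hle
  rw [map_add, map_smul (m.toLin) (1 / ε), mean_sqHat μ hμ hm, m.const_smul] at this
  simpa using this

end Fourier

end Q120.KMF
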