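import Pool.Agent.Q120.MdmExt

/-!
# The base of the recursion: a colouring of `K_36`
-/

namespace Pool.Agent.Q120.Mdm

open SimpleGraph Finset

/-- Entry `i` of a table coded in base 64. -/
def tab (c : ℕ) (i : Fin 36) : ℕ := (c / 64 ^ i.val) % 64

def adjC : ℕ := 41631728739560307231332718472807018098570904591032683715744635539192274165554069993848655595354970865631712858800336290196720697361767539357286764779882544374231119634375806231926030711738488340787558692149801334691209324796329484242865236732013495182389368032480714248655625945474964047938362422511095656539393909504244932554064369135182185485704934006066435502007521940156861311873024206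
def d1C : ℕ := 46805054850997037603024016884677003817639763988074587593838215882
def n1C : ℕ := 8358118384836606648796046837093495050255379312821704343626981440
def l1C : ℕ := 8358118384836606650223294529799454931313670006961544155424890944
def e1C : ℕ := 8358118384836606650245595274997985554455205799039746228951461952
def d2C : ℕ := 11701773853756955006930442939584347470635289012230474214112327193
def n2C : ℕ := 816219385029506580814712015888992872786843837693788104708421
def l2C : ℕ := 1647130529032672457341881752562939309590437548577155711648420165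
def e2C : ℕ := 1672848011026692354324496709612030892045656782093552788824150341

/-- Adjacency bit. -/
def ab (i j : Fin 36) : Bool := Nat.testBit adjC (36 * i.val + j.val)

theorem ab_symm : ∀ i j : Fin 36, ab i j = true → ab j i = true := by decide +kernel
theorem ab_irrefl : ∀ i : Fin 36, ¬ ab i i = true := by decide +kernel

/-- The base graph. -/
def G0 : SimpleGraph (Fin 36) where
  Adj i j := ab i j = true
  symm := ⟨fun i j h => ab_symm i j h⟩
  loopless := ⟨fun i h => ab_irrefl i h⟩

instance : DecidableRel G0.Adj := fun i j => inferInstanceAs (Decidable (ab i j = true))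

theorem sum1 : ∀ i : Fin 36, (∑ j : Fin 36, if ab i j = true then 1 else 0) = tab d1C i := by
  decide +kernel

theorem dg1 (i : Fin 36) : dg G0 i = tab d1C i := by
  rw [dg_eq]
  exact sum1 i

theorem d12 : ∀ i : Fin 36, tab d1C i + tab d2C i + 1 = 36 := by decide +kernel

theorem dg2 (i : Fin 36) : dg G0ᶜ i = tab d2C i := by
  have h1 := dg_compl G0 i
  have h2 := d12 i
  rw [dg1, Fintype.card_fin] at h1
  omega

theorem adj2 (i j : Fin 36) : G0ᶜ.Adj i j ↔ (i ≠ j ∧ ab i j = false) := by
  rw [compl_adj]
  show (i ≠ j ∧ ¬ ab i j = true) ↔ _
  simp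

theorem base_no1 : NoMP G0 6 := by
  apply noMP_of_cert G0 6 (tab n1C) (tab l1C) (tab e1C)
  · decide +kernel
  · decide +kernel
  · decide +kernel
  · have h : ∀ v w : Fin 36, ab v w = true → tab d1C v < tab d1C w → tab e1C v < tab n1C w := by
      decide +kernel
    intro v w hvw hd
    rw [dg1, dg1] at hd
    exact h v w hvw hd
  · have h : ∀ v w : Fin 36, ab v w = true → tab d1C v = tab d1C w →
        tab n1C v = tab n1C w ∧ tab e1C v = tab e1C w ∧ tab l1C v ≠ tab l1C w := by
      decide +kernel
    intro v w hvw hd
    rw [dg1, dg1] at hd
    exact h v w hvw hd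
  · have h : ∀ u v w : Fin 36, ab u v = true → tab d1C u = tab d1C v → tab d1C w = tab d1C u →
        w ≠ u → ab u w = true := by
      decide +kernel
    intro u v w huv hd hd' hne
    rw [dg1, dg1] at hd hd'
    exact h u v w huv hd hd' hne

theorem base_no2 : NoMP G0ᶜ 6 := by
  apply noMP_of_cert G0ᶜ 6 (tab n2C) (tab l2C) (tab e2C)
  · decide +kernel
  · decide +kernel
  · decide +kernel
  · have h : ∀ v w : Fin 36, (v ≠ w ∧ ab v w = false) → tab d2C v < tab d2C w →
        tab e2C v < tab n2C w := by
      decide +kernel
    intro v w hvw hd
    rw [dg2, dg2] at hd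
    exact h v w ((adj2 v w).1 hvw) hd
  · have h : ∀ v w : Fin 36, (v ≠ w ∧ ab v w = false) → tab d2C v = tab d2C w →
        tab n2C v = tab n2C w ∧ tab e2C v = tab e2C w ∧ tab l2C v ≠ tab l2C w := by
      decide +kernel
    intro v w hvw hd
    rw [dg2, dg2] at hd
    exact h v w ((adj2 v w).1 hvw) hd
  · have h : ∀ u v w : Fin 36, (u ≠ v ∧ ab u v = false) → tab d2C u = tab d2C v →
        tab d2C w = tab d2C u → w ≠ u → (u ≠ w ∧ ab u w = false) := by
      decide +kernel
    intro u v w huv hd hd' hne
    rw [dg2, dg2] at hd hd'
    exact (adj2 u w).2 (h u v w ((adj2 u v).1 huv) hd hd' hne)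

theorem base_good : Good G0 6 where
  kpos := by norm_num
  npos := by simp
  no1 := base_no1
  no2 := base_no2
  low := by
    have h : ∀ v : Fin 36, 1 ≤ tab d1C v := by decide +kernel
    intro v
    rw [dg1]
    exact h v
  high := by
    have h : ∀ v : Fin 36, tab d1C v + 6 < 36 := by decide +kernel
    intro v
    rw [dg1, Fintype.card_fin]
    exact h v

end Pool.Agent.Q120.Mdm
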