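import Mathlib

/-!
# Monochromatic degree-monotone paths: definitions and general lemmas
-/

namespace Pool.Agent.Q120.Mdm

open SimpleGraph Finset

/-- The number of neighbours of `v` in `G`. -/
noncomputable def dg {V : Type*} (G : SimpleGraph V) (v : V) : ℕ := (G.neighborSet v).ncard

/-- `G` has a degree-monotone path of order `m`: distinct vertices `p 0, …, p (m-1)`, consecutive
ones adjacent in `G`, with `deg (p 0) ≤ deg (p 1) ≤ … ≤ deg (p (m-1))`, degrees taken in `G`. -/
def HasMP {V : Type*} (G : SimpleGraph V) (m : ℕ) : Prop :=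
  ∃ p : Fin m → V, Function.Injective p ∧
    ∀ i j : Fin m, i.val + 1 = j.val → G.Adj (p i) (p j) ∧ dg G (p i) ≤ dg G (p j)

/-- The numbers `M` such that, for every `n ≥ M`, every 2-colouring of the edges of `K_n` has a
monochromatic degree-monotone path of order `m`. -/
def Forcing (m : ℕ) : Set ℕ :=
  {M | ∀ n : ℕ, M ≤ n → ∀ C : TopEdgeLabeling (Fin n) (Fin 2),
    ∃ j : Fin 2, HasMP (C.labelGraph j) m}

/-- The number `M_2(m)`. -/
noncomputable def M2 (m : ℕ) : ℕ := sInf (Forcing m)

section general

variable {V W : Type} [Fintype V] [Fintype W]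

theorem dg_eq (G : SimpleGraph V) [DecidableRel G.Adj] (v : V) :
    dg G v = ∑ w : V, if G.Adj v w then 1 else 0 := by
  classical
  rw [Finset.sum_boole]
  unfold dg
  rw [Set.ncard_eq_toFinset_card']
  simp only [Nat.cast_id]
  congr 1
  ext w
  simp

theorem dg_compl (G : SimpleGraph V) (v : V) :
    dg G v + dg Gᶜ v + 1 = Fintype.card V := by
  classical
  rw [dg_eq, dg_eq, ← Finset.sum_add_distrib]
  have h : ∀ w : V, ((if G.Adj v w then 1 else 0) + (if Gᶜ.Adj v w then 1 else 0) : ℕ)
      + (if w = v then 1 else 0) = 1 := by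
    intro w
    by_cases h : w = v
    · subst h; simp
    · by_cases h' : G.Adj v w
      · simp [h, h']
      · simp [h, h', Ne.symm h]
  have h2 : ∑ w : V, (((if G.Adj v w then 1 else 0) + (if Gᶜ.Adj v w then 1 else 0) : ℕ)
      + (if w = v then 1 else 0)) = Fintype.card V := by
    rw [Finset.sum_congr rfl (fun w _ => h w)]
    simp
  rw [Finset.sum_add_distrib] at h2
  simpa using h2

/-- Transfer along a bijection. -/
theorem hasMP_of_equiv (G : SimpleGraph V) (e : W ≃ V) (m : ℕ) :
    HasMP (G.comap e) m → HasMP G m := by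
  classical
  rintro ⟨p, hp, h⟩
  refine ⟨fun i => e (p i), e.injective.comp hp, ?_⟩
  have hd : ∀ w : W, dg (G.comap e) w = dg G (e w) := by
    intro w
    rw [dg_eq, dg_eq]
    simp only [comap_adj]
    exact Equiv.sum_comp e (fun x => if G.Adj (e w) x then (1 : ℕ) else 0)
  intro i j hij
  have := h i j hij
  rw [hd, hd] at this
  exact ⟨this.1, this.2⟩

/-- No degree-monotone path with more than `k` vertices. -/
def NoMP (G : SimpleGraph V) (k : ℕ) : Prop := ∀ m, HasMP G m → m ≤ k

/-- Certificate for the absence of degree-monotone paths with more than `k` vertices. -/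
theorem noMP_of_cert (G : SimpleGraph V) (k : ℕ) (N L E : V → ℕ)
    (hL : ∀ v, L v < k) (hNL : ∀ v, N v ≤ L v) (hLE : ∀ v, L v ≤ E v)
    (h1 : ∀ v w, G.Adj v w → dg G v < dg G w → E v < N w)
    (h2 : ∀ v w, G.Adj v w → dg G v = dg G w → N v = N w ∧ E v = E w ∧ L v ≠ L w)
    (h3 : ∀ u v w, G.Adj u v → dg G u = dg G v → dg G w = dg G u → w ≠ u → G.Adj u w) :
    NoMP G k := by
  rintro m ⟨p, hp, h⟩
  have key : ∀ (d : ℕ) (i j : Fin m), i.val + (d + 1) = j.val →
      (dg G (p i) < dg G (p j) ∧ E (p i) < N (p j)) ∨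
      (dg G (p i) = dg G (p j) ∧ G.Adj (p i) (p j)) := by
    intro d
    induction d with
    | zero =>
      intro i j hij
      have ⟨ha, hd⟩ := h i j hij
      rcases hd.lt_or_eq with hlt | heq
      · exact Or.inl ⟨hlt, h1 _ _ ha hlt⟩
      · exact Or.inr ⟨heq, ha⟩
    | succ d ih =>
      intro i j hij
      have hj : j.val - 1 < m := by omega
      have hij' : i.val + (d + 1) = (⟨j.val - 1, hj⟩ : Fin m).val := by
        show i.val + (d + 1) = j.val - 1
        omega
      have ⟨ha, hd⟩ := h ⟨j.val - 1, hj⟩ j (by show j.val - 1 + 1 = j.val; omega)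
      have hne : p j ≠ p i := by
        intro hh
        have := hp hh
        rw [this] at hij
        omega
      rcases ih i ⟨j.val - 1, hj⟩ hij' with ⟨a1, a2⟩ | ⟨a1, a2⟩
      · rcases hd.lt_or_eq with hlt | heq
        · left
          refine ⟨a1.trans hlt, ?_⟩
          have := h1 _ _ ha hlt
          have e1 := hNL (p ⟨j.val - 1, hj⟩)
          have e2 := hLE (p ⟨j.val - 1, hj⟩)
          omega
        · left
          have := h2 _ _ ha heq
          refine ⟨by omega, by omega⟩
      · rcases hd.lt_or_eq with hlt | heq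
        · left
          have b := h2 _ _ a2 a1
          have := h1 _ _ ha hlt
          refine ⟨by omega, by omega⟩
        · right
          refine ⟨by omega, ?_⟩
          exact h3 _ _ _ a2 a1 (by omega) hne
  have hinj : Function.Injective (fun i : Fin m => (⟨L (p i), hL _⟩ : Fin k)) := by
    have aux : ∀ i j : Fin m, i.val < j.val → L (p i) ≠ L (p j) := by
      intro i j hij
      rcases key (j.val - i.val - 1) i j (by omega) with ⟨a1, a2⟩ | ⟨a1, a2⟩
      · have e1 := hLE (p i)
        have e2 := hNL (p j)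
        omega
      · exact (h2 _ _ a2 a1).2.2
    intro i j hij
    simp only [Fin.mk.injEq] at hij
    rcases lt_trichotomy i.val j.val with hlt | heq | hgt
    · exact absurd hij (aux i j hlt)
    · exact Fin.ext heq
    · exact absurd hij.symm (aux j i hgt)
  have := Fintype.card_le_of_injective _ hinj
  simpa using this

end general

end Pool.Agent.Q120.Mdm
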