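import Pool.Agent.Q120.MdmDefs

/-!
# The extension step `k ↦ k+1`
-/

namespace Pool.Agent.Q120.Mdm

open SimpleGraph Finset

/-- Adjacency of the extension: a disjoint clique of size `k+1`, and `k` pairwise non-adjacent
vertices joined to everything in `G`. -/
def extAdj {V : Type} (G : SimpleGraph V) (k : ℕ) :
    V ⊕ (Fin (k + 1) ⊕ Fin k) → V ⊕ (Fin (k + 1) ⊕ Fin k) → Prop
  | .inl u, .inl v => G.Adj u v
  | .inl _, .inr (.inr _) => True
  | .inr (.inr _), .inl _ => True
  | .inr (.inl i), .inr (.inl j) => i ≠ j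
  | .inl _, .inr (.inl _) => False
  | .inr (.inl _), .inl _ => False
  | .inr (.inl _), .inr (.inr _) => False
  | .inr (.inr _), .inr (.inl _) => False
  | .inr (.inr _), .inr (.inr _) => False

/-- The extension graph. -/
def ext {V : Type} (G : SimpleGraph V) (k : ℕ) : SimpleGraph (V ⊕ (Fin (k + 1) ⊕ Fin k)) where
  Adj := extAdj G k
  symm := ⟨by
    rintro (u | u | u) (v | v | v) h <;> simp_all [extAdj, adj_comm, eq_comm]⟩
  loopless := ⟨by
    rintro (u | u | u) h <;> simp_all [extAdj]⟩

section

section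
variable {V : Type} (G : SimpleGraph V) (k : ℕ)

@[simp] theorem ext_VV (u v : V) : (ext G k).Adj (.inl u) (.inl v) ↔ G.Adj u v := Iff.rfl
@[simp] theorem ext_VC (u : V) (v : Fin (k+1)) : ¬ (ext G k).Adj (.inl u) (.inr (.inl v)) :=
  fun h => h
@[simp] theorem ext_VR (u : V) (v : Fin k) : (ext G k).Adj (.inl u) (.inr (.inr v)) := trivial
@[simp] theorem ext_RV (u : V) (v : Fin k) : (ext G k).Adj (.inr (.inr v)) (.inl u) := trivial
@[simp] theorem ext_CV (u : V) (v : Fin (k+1)) : ¬ (ext G k).Adj (.inr (.inl v)) (.inl u) :=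
  fun h => h
@[simp] theorem ext_CC (u v : Fin (k+1)) :
    (ext G k).Adj (.inr (.inl u)) (.inr (.inl v)) ↔ u ≠ v := Iff.rfl
@[simp] theorem ext_CR (u : Fin (k+1)) (v : Fin k) :
    ¬ (ext G k).Adj (.inr (.inl u)) (.inr (.inr v)) := fun h => h
@[simp] theorem ext_RC (u : Fin (k+1)) (v : Fin k) :
    ¬ (ext G k).Adj (.inr (.inr v)) (.inr (.inl u)) := fun h => h
@[simp] theorem ext_RR (u v : Fin k) :
    ¬ (ext G k).Adj (.inr (.inr u)) (.inr (.inr v)) := fun h => h

end

variable {V : Type} [Fintype V] (G : SimpleGraph V) (k : ℕ)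

theorem dg_V (v : V) : dg (ext G k) (.inl v) = dg G v + k := by
  classical
  rw [dg_eq, dg_eq, Fintype.sum_sum_type, Fintype.sum_sum_type]
  simp

theorem dg_C (v : Fin (k+1)) : dg (ext G k) (.inr (.inl v)) = k := by
  classical
  rw [dg_eq, Fintype.sum_sum_type, Fintype.sum_sum_type]
  have h : ∀ x : Fin (k+1), ((if v = x then 0 else 1 : ℕ)) + (if v = x then 1 else 0) = 1 := by
    intro x; split_ifs <;> rfl
  have h2 : ∑ x : Fin (k+1), (((if v = x then 0 else 1 : ℕ)) + (if v = x then 1 else 0)) = k + 1 := by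
    rw [Finset.sum_congr rfl (fun x _ => h x)]; simp
  rw [Finset.sum_add_distrib] at h2
  simp at h2
  simpa using h2

theorem dg_R (v : Fin k) : dg (ext G k) (.inr (.inr v)) = Fintype.card V := by
  classical
  rw [dg_eq, Fintype.sum_sum_type, Fintype.sum_sum_type]
  simp

theorem card_ext : Fintype.card (V ⊕ (Fin (k + 1) ⊕ Fin k)) = Fintype.card V + 2 * k + 1 := by
  simp
  omega

/-- The invariant of the recursion. -/
structure Good (G : SimpleGraph V) (k : ℕ) : Prop where
  kpos : 1 ≤ k
  npos : 0 < Fintype.card V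
  no1 : NoMP G k
  no2 : NoMP Gᶜ k
  low : ∀ v, 1 ≤ dg G v
  high : ∀ v, dg G v + k < Fintype.card V

variable {G k}

theorem ext_no1 (hG : Good G k) : NoMP (ext G k) (k + 1) := by
  rintro m ⟨p, hp, h⟩
  by_contra hm
  push Not at hm
  -- membership in `C`
  have isC : ∀ i j : Fin m, i.val + 1 = j.val →
      ((∃ c, p i = .inr (.inl c)) ↔ ∃ c, p j = .inr (.inl c)) := by
    intro i j hij
    have ha := (h i j hij).1
    rcases hi : p i with u | u | u <;> rcases hj : p j with v | v | v <;>
      rw [hi, hj] at ha <;> simp_all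
  have isC' : ∀ (d : ℕ) (hd : d < m), ((∃ c, p ⟨d, hd⟩ = .inr (.inl c)) ↔
      ∃ c, p ⟨0, by omega⟩ = .inr (.inl c)) := by
    intro d
    induction d with
    | zero => intro hd; exact Iff.rfl
    | succ d ih =>
      intro hd
      rw [← ih (by omega)]
      exact (isC ⟨d, by omega⟩ ⟨d + 1, hd⟩ rfl).symm
  by_cases hC : ∃ c, p ⟨0, by omega⟩ = .inr (.inl c)
  · have all : ∀ i : Fin m, ∃ c, p i = .inr (.inl c) := fun i => (isC' i.val i.isLt).2 hC
    choose c hc using all
    have hinj : Function.Injective c := by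
      intro i j hij
      apply hp
      rw [hc, hc, hij]
    have := Fintype.card_le_of_injective _ hinj
    simp at this
    omega
  · have none : ∀ i : Fin m, ¬ ∃ c, p i = .inr (.inl c) := fun i hi =>
      hC ((isC' i.val i.isLt).1 hi)
    have allV : ∀ i : Fin m, i.val + 1 < m → ∃ v, p i = .inl v := by
      intro i hi
      have ⟨ha, hd⟩ := h i ⟨i.val + 1, hi⟩ rfl
      rcases hpi : p i with u | u | u
      · exact ⟨u, rfl⟩
      · exact absurd ⟨u, hpi⟩ (none i)
      · exfalso
        rcases hpj : p ⟨i.val + 1, hi⟩ with v | v | v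
        · rw [hpi, hpj, dg_R, dg_V] at hd
          have := hG.high v
          omega
        · exact none _ ⟨v, hpj⟩
        · rw [hpi, hpj] at ha
          simp at ha
    choose f hf using allV
    have hmp : HasMP G (m - 1) := by
      refine ⟨fun i => f ⟨i.val, by omega⟩ (by simp; omega), ?_, ?_⟩
      · intro i j hij
        have := congrArg (fun x => (Sum.inl x : V ⊕ (Fin (k + 1) ⊕ Fin k))) hij
        simp only [← hf] at this
        have := hp this
        simp only [Fin.mk.injEq] at this
        exact Fin.ext this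
      · intro i j hij
        have := h ⟨i.val, by omega⟩ ⟨j.val, by omega⟩ (by simpa using hij)
        rw [hf ⟨i.val, by omega⟩ (by simp; omega), hf ⟨j.val, by omega⟩ (by simp; omega), dg_V,
          dg_V] at this
        exact ⟨this.1, Nat.le_of_add_le_add_right this.2⟩
    have := hG.no1 _ hmp
    omega

theorem ext_no2 (hG : Good G k) : NoMP (ext G k)ᶜ (k + 1) := by
  rintro m ⟨p, hp, h⟩
  by_contra hm
  push Not at hm
  have cV : ∀ v : V, dg (ext G k)ᶜ (.inl v) + dg G v + 1 = Fintype.card V + k + 1 := by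
    intro v
    have := dg_compl (ext G k) (.inl v)
    rw [dg_V, card_ext] at this
    omega
  have cC : ∀ v : Fin (k+1), dg (ext G k)ᶜ (.inr (.inl v)) = Fintype.card V + k := by
    intro v
    have := dg_compl (ext G k) (.inr (.inl v))
    rw [dg_C, card_ext] at this
    omega
  have cR : ∀ v : Fin k, dg (ext G k)ᶜ (.inr (.inr v)) = 2 * k := by
    intro v
    have := dg_compl (ext G k) (.inr (.inr v))
    rw [dg_R, card_ext] at this
    omega
  have cVs : 0 < Fintype.card V := hG.npos
  have notC : ∀ i : Fin m, i.val + 1 < m → ¬ ∃ c, p i = .inr (.inl c) := by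
    rintro i hi ⟨u, hpi⟩
    have ⟨ha, hd⟩ := h i ⟨i.val + 1, hi⟩ rfl
    rcases hpj : p ⟨i.val + 1, hi⟩ with v | v | v
    · rw [hpi, hpj, cC] at hd
      have := cV v
      have := hG.low v
      omega
    · rw [hpi, hpj] at ha
      simp only [compl_adj, ext_CC] at ha
      exact ha.2 (fun e => ha.1 (by rw [e]))
    · rw [hpi, hpj, cC, cR] at hd
      obtain ⟨w⟩ : Nonempty V := Fintype.card_pos_iff.1 cVs
      have := hG.high w
      omega
  have isV : ∀ i j : Fin m, i.val + 1 = j.val → j.val + 1 < m →
      ((∃ c, p i = .inl c) ↔ ∃ c, p j = .inl c) := by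
    intro i j hij hj1
    have ha := (h i j hij).1
    have n1 := notC i (by omega)
    have n2 := notC j hj1
    rcases hi : p i with u | u | u <;> rcases hj : p j with v | v | v <;>
      rw [hi, hj] at ha <;> simp_all
  have isV' : ∀ (d : ℕ) (hd : d + 1 < m), ((∃ c, p ⟨d, by omega⟩ = .inl c) ↔
      ∃ c, p ⟨0, by omega⟩ = .inl c) := by
    intro d
    induction d with
    | zero => intro hd; exact Iff.rfl
    | succ d ih =>
      intro hd
      rw [← ih (by omega)]
      exact (isV ⟨d, by omega⟩ ⟨d + 1, by omega⟩ rfl hd).symm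
  by_cases hV : ∃ c, p ⟨0, by omega⟩ = .inl c
  · have allV : ∀ i : Fin m, i.val + 1 < m → ∃ v, p i = .inl v :=
      fun i hi => (isV' i.val hi).2 hV
    choose f hf using allV
    have hmp : HasMP Gᶜ (m - 1) := by
      refine ⟨fun i => f ⟨i.val, by omega⟩ (by simp; omega), ?_, ?_⟩
      · intro i j hij
        have := congrArg (fun x => (Sum.inl x : V ⊕ (Fin (k + 1) ⊕ Fin k))) hij
        simp only [← hf] at this
        have := hp this
        simp only [Fin.mk.injEq] at this
        exact Fin.ext this
      · intro i j hij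
        have := h ⟨i.val, by omega⟩ ⟨j.val, by omega⟩ (by simpa using hij)
        rw [hf ⟨i.val, by omega⟩ (by simp; omega), hf ⟨j.val, by omega⟩ (by simp; omega)] at this
        have e1 := cV (f ⟨i.val, by omega⟩ (by simp; omega))
        have e2 := cV (f ⟨j.val, by omega⟩ (by simp; omega))
        have e3 := dg_compl G (f ⟨i.val, by omega⟩ (by simp; omega))
        have e4 := dg_compl G (f ⟨j.val, by omega⟩ (by simp; omega))
        refine ⟨?_, ?_⟩
        · have := this.1
          simp only [compl_adj, ext_VV] at this ⊢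
          refine ⟨fun e => this.1 (by rw [e]), this.2⟩
        · have := this.2
          show dg Gᶜ (f ⟨i.val, _⟩ _) ≤ dg Gᶜ (f ⟨j.val, _⟩ _)
          omega
    have := hG.no2 _ hmp
    omega
  · have allR : ∀ i : Fin m, i.val + 1 < m → ∃ v, p i = .inr (.inr v) := by
      intro i hi
      have a1 : ¬ ∃ c, p i = .inl c := fun hh => hV ((isV' i.val hi).1 hh)
      have a2 := notC i hi
      rcases hpi : p i with u | u | u
      · exact absurd ⟨u, hpi⟩ a1
      · exact absurd ⟨u, hpi⟩ a2
      · exact ⟨u, rfl⟩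
    choose f hf using allR
    have hinj : Function.Injective (fun i : Fin (m - 1) =>
        f ⟨i.val, by omega⟩ (by simp; omega)) := by
      intro i j hij
      have := congrArg (fun x => (Sum.inr (Sum.inr x) : V ⊕ (Fin (k + 1) ⊕ Fin k))) hij
      simp only [← hf] at this
      have := hp this
      simp only [Fin.mk.injEq] at this
      exact Fin.ext this
    have := Fintype.card_le_of_injective _ hinj
    simp at this
    omega

theorem good_ext (hG : Good G k) : Good (ext G k) (k + 1) where
  kpos := by omega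
  npos := by rw [card_ext]; omega
  no1 := ext_no1 hG
  no2 := ext_no2 hG
  low := by
    have h0 := hG.kpos
    have h1 := hG.npos
    rintro (v | v | v)
    · rw [dg_V]; omega
    · rw [dg_C]; omega
    · rw [dg_R]; omega
  high := by
    have h0 := hG.kpos
    have h1 := hG.npos
    rintro (v | v | v)
    · rw [dg_V, card_ext]; have := hG.high v; omega
    · rw [dg_C, card_ext]; omega
    · rw [dg_R, card_ext]; omega

end

end Pool.Agent.Q120.Mdm
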