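import Pool.Agent.Q120.MdmDefs

/-!
# The upper bound `M_2(m) ≤ (m-1)^2 + 1`
-/

namespace Pool.Agent.Q120.Mdm

open SimpleGraph Finset

/-- `Ch R t v`: there is an `R`-chain with `t` vertices ending in `v`. -/
inductive Ch {V : Type} (R : V → V → Prop) : ℕ → V → Prop
  | one (v : V) : Ch R 1 v
  | step {t : ℕ} {u v : V} : Ch R t u → R u v → Ch R (t + 1) v

theorem Ch.pos {V : Type} {R : V → V → Prop} {t : ℕ} {v : V} (h : Ch R t v) : 1 ≤ t := by
  cases h <;> omega

theorem Ch.path {V : Type} {R : V → V → Prop} {t : ℕ} {v : V} (h : Ch R t v) :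
    ∃ p : ℕ → V, p (t - 1) = v ∧ ∀ i, i + 1 < t → R (p i) (p (i + 1)) := by
  induction h with
  | one v => exact ⟨fun _ => v, rfl, fun i hi => by omega⟩
  | @step t u v h hr ih =>
    obtain ⟨p, hp, hs⟩ := ih
    have ht := h.pos
    refine ⟨fun i => if i < t then p i else v, ?_, ?_⟩
    · simp
    · intro i hi
      by_cases h1 : i + 1 < t
      · simp only [h1, if_true, show i < t by omega]
        exact hs i h1
      · have : i = t - 1 := by omega
        subst this
        simp only [show t - 1 < t by omega, if_true, show ¬ (t - 1 + 1 < t) by omega, if_false]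
        rw [hp]
        exact hr

/-- From a chain for a relation contained in a transitive irreflexive relation, get an injective
path. -/
theorem chain_inj {V : Type} {R S : V → V → Prop} (hRS : ∀ u v, R u v → S u v)
    (htr : ∀ u v w, S u v → S v w → S u w) {t : ℕ} (p : ℕ → V)
    (hs : ∀ i, i + 1 < t → R (p i) (p (i + 1))) :
    ∀ i j, i < j → j < t → S (p i) (p j) := by
  intro i j hij
  induction j with
  | zero => omega
  | succ j ih =>
    intro hj
    rcases Nat.lt_or_ge i j with h | h
    · exact htr _ _ _ (ih h (by omega)) (hRS _ _ (hs j hj))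
    · have : i = j := by omega
      subst this
      exact hRS _ _ (hs i hj)

theorem upper (m n : ℕ) (hm : 1 ≤ m) (hn : (m - 1) ^ 2 + 1 ≤ n) (G : SimpleGraph (Fin n)) :
    HasMP G m ∨ HasMP Gᶜ m := by
  classical
  by_contra hcon
  push Not at hcon
  obtain ⟨h1, h2⟩ := hcon
  let S : Fin n → Fin n → Prop := fun u v => dg G u < dg G v ∨ (dg G u = dg G v ∧ u < v)
  have Str : ∀ u v w, S u v → S v w → S u w := by
    intro u v w huv hvw
    rcases huv with a | ⟨a, a'⟩ <;> rcases hvw with b | ⟨b, b'⟩
    · exact Or.inl (a.trans b)
    · exact Or.inl (by omega)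
    · exact Or.inl (by omega)
    · exact Or.inr ⟨a.trans b, a'.trans b'⟩
  have Sir : ∀ u, ¬ S u u := by
    rintro u (a | ⟨a, a'⟩)
    · omega
    · exact lt_irrefl _ a'
  have Stot : ∀ u v, u ≠ v → S u v ∨ S v u := by
    intro u v huv
    rcases lt_trichotomy (dg G u) (dg G v) with h | h | h
    · exact Or.inl (Or.inl h)
    · rcases lt_or_gt_of_ne huv with h' | h'
      · exact Or.inl (Or.inr ⟨h, h'⟩)
      · exact Or.inr (Or.inr ⟨h.symm, h'⟩)
    · exact Or.inr (Or.inl h)
  have Sdg : ∀ u v, S u v → dg G u ≤ dg G v := by
    rintro u v (a | ⟨a, -⟩) <;> omega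
  let R1 : Fin n → Fin n → Prop := fun u v => S u v ∧ G.Adj u v
  let R2 : Fin n → Fin n → Prop := fun u v => S u v ∧ ¬ G.Adj u v
  have n1 : ∀ v, ¬ Ch R1 m v := by
    intro v hv
    obtain ⟨p, -, hs⟩ := hv.path
    apply h1
    have hS := chain_inj (S := S) (fun u v h => h.1) Str p hs
    refine ⟨fun i => p i.val, ?_, ?_⟩
    · intro i j hij
      rcases lt_trichotomy i.val j.val with h | h | h
      · have := hS _ _ h j.isLt
        simp only at hij
        rw [hij] at this
        exact absurd this (Sir _)
      · exact Fin.ext h
      · have := hS _ _ h i.isLt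
        simp only at hij
        rw [hij] at this
        exact absurd this (Sir _)
    · intro i j hij
      have := hs i.val (by omega)
      rw [hij] at this
      exact ⟨this.2, Sdg _ _ this.1⟩
  have n2 : ∀ v, ¬ Ch R2 m v := by
    intro v hv
    obtain ⟨p, -, hs⟩ := hv.path
    apply h2
    have hS := chain_inj (S := S) (fun u v h => h.1) Str p hs
    have hinj : ∀ a b : ℕ, a < m → b < m → p a = p b → a = b := by
      intro a b ha hb hab
      rcases lt_trichotomy a b with h | h | h
      · have := hS _ _ h hb
        rw [hab] at this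
        exact absurd this (Sir _)
      · exact h
      · have := hS _ _ h ha
        rw [hab] at this
        exact absurd this (Sir _)
    refine ⟨fun i => p (m - 1 - i.val), ?_, ?_⟩
    · intro i j hij
      have := hinj _ _ (by omega) (by omega) hij
      exact Fin.ext (by omega)
    · intro i j hij
      have h0 := hs (m - 1 - j.val) (by omega)
      have e : m - 1 - j.val + 1 = m - 1 - i.val := by omega
      rw [e] at h0
      have c1 := dg_compl G (p (m - 1 - j.val))
      have c2 := dg_compl G (p (m - 1 - i.val))
      have c3 := Sdg _ _ h0.1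
      refine ⟨?_, ?_⟩
      · rw [compl_adj]
        refine ⟨?_, fun h => h0.2 h.symm⟩
        intro hh
        have hh' : p (m - 1 - i.val) = p (m - 1 - j.val) := hh
        have := h0.1
        rw [hh'] at this
        exact Sir _ this
      · show dg Gᶜ (p (m - 1 - i.val)) ≤ dg Gᶜ (p (m - 1 - j.val))
        omega
  have down : ∀ (R : Fin n → Fin n → Prop) (t : ℕ) (v : Fin n), Ch R t v → ∀ s, 1 ≤ s → s ≤ t →
      Ch R s v := by
    intro R t v h
    induction h with
    | one v => intro s hs hs'; have : s = 1 := by omega
               subst this; exact Ch.one v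
    | @step t u v h hr ih =>
      intro s hs hs'
      rcases Nat.lt_or_ge 1 s with h1 | h1
      · have := ih (s - 1) (by omega) (by omega)
        have h2 := Ch.step this hr
        rwa [show s - 1 + 1 = s by omega] at h2
      · have : s = 1 := by omega
        subst this; exact Ch.one v
  rcases Nat.lt_or_ge 1 m with hm1 | hm1
  · let f : Fin n → ℕ := fun v => Nat.findGreatest (fun t => Ch R1 t v) (m - 1)
    let g : Fin n → ℕ := fun v => Nat.findGreatest (fun t => Ch R2 t v) (m - 1)
    have fch : ∀ v, Ch R1 (f v) v := fun v =>
      Nat.findGreatest_spec (P := fun t => Ch R1 t v) (show 1 ≤ m - 1 by omega) (Ch.one v)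
    have gch : ∀ v, Ch R2 (g v) v := fun v =>
      Nat.findGreatest_spec (P := fun t => Ch R2 t v) (show 1 ≤ m - 1 by omega) (Ch.one v)
    have f1 : ∀ v, 1 ≤ f v := fun v => (fch v).pos
    have g1 : ∀ v, 1 ≤ g v := fun v => (gch v).pos
    have fle : ∀ v, f v ≤ m - 1 := fun v => Nat.findGreatest_le _
    have gle : ∀ v, g v ≤ m - 1 := fun v => Nat.findGreatest_le _
    have stepf : ∀ u v, R1 u v → f u < f v := by
      intro u v h
      have hc := Ch.step (fch u) h
      have hlt : f u + 1 ≤ m - 1 := by
        by_contra hh
        push Not at hh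
        have : f u + 1 = m := by have := fle u; omega
        rw [this] at hc
        exact n1 v hc
      exact Nat.le_findGreatest hlt hc
    have stepg : ∀ u v, R2 u v → g u < g v := by
      intro u v h
      have hc := Ch.step (gch u) h
      have hlt : g u + 1 ≤ m - 1 := by
        by_contra hh
        push Not at hh
        have : g u + 1 = m := by have := gle u; omega
        rw [this] at hc
        exact n2 v hc
      exact Nat.le_findGreatest hlt hc
    have hinj : Function.Injective (fun v : Fin n =>
        ((⟨f v - 1, by have := f1 v; have := fle v; omega⟩,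
          ⟨g v - 1, by have := g1 v; have := gle v; omega⟩) : Fin (m - 1) × Fin (m - 1))) := by
      intro u v huv
      simp only [Prod.mk.injEq, Fin.mk.injEq] at huv
      by_contra hne
      have a1 := f1 u
      have a2 := f1 v
      have a3 := g1 u
      have a4 := g1 v
      rcases Stot u v hne with h | h
      · by_cases ha : G.Adj u v
        · have := stepf u v ⟨h, ha⟩
          omega
        · have := stepg u v ⟨h, ha⟩
          omega
      · by_cases ha : G.Adj v u
        · have := stepf v u ⟨h, ha⟩
          omega
        · have := stepg v u ⟨h, ha⟩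
          omega
    have hc := Fintype.card_le_of_injective _ hinj
    simp only [Fintype.card_fin, Fintype.card_prod] at hc
    have : (m - 1) ^ 2 = (m - 1) * (m - 1) := by ring
    omega
  · have : m = 1 := by omega
    subst this
    exact n1 ⟨0, by omega⟩ (Ch.one _)

end Pool.Agent.Q120.Mdm
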